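import Mathlib

/-!
CF16/Gen: cutting a derivation of a context free grammar.
-/

set_option autoImplicit false

namespace Pool.Agent.CF16

variable {T : Type}

/-- The number of terminals of a string. -/
def tc {N : Type} : List (Symbol T N) → ℕ
  | [] => 0
  | Symbol.terminal _ :: v => tc v + 1
  | Symbol.nonterminal _ :: v => tc v

theorem tc_append {N : Type} (u v : List (Symbol T N)) : tc (u ++ v) = tc u + tc v := by
  induction u with
  | nil => simp [tc]
  | cons a u ih =>
    cases a with
    | terminal t => simp only [List.cons_append, tc, ih]; omega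
    | nonterminal n => simp only [List.cons_append, tc, ih]

theorem tc_cons_le {N : Type} (a : Symbol T N) (v : List (Symbol T N)) :
    tc (a :: v) ≤ tc v + 1 := by
  cases a with
  | terminal t => exact le_rfl
  | nonterminal n => exact Nat.le_succ _

/-- Parsing relation between strings of symbols. -/
inductive GenL (g : ContextFreeGrammar T) :
    List (Symbol T g.NT) → List (Symbol T g.NT) → Prop
  | nil : GenL g [] []
  | cons (a : Symbol T g.NT) {α v : List (Symbol T g.NT)} (h : GenL g α v) :
      GenL g (a :: α) (a :: v)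
  | node (r : ContextFreeRule T g.NT) (hr : r ∈ g.rules) {α u v : List (Symbol T g.NT)}
      (hu : GenL g r.output u) (hv : GenL g α v) :
      GenL g (Symbol.nonterminal r.input :: α) (u ++ v)

theorem GenL.refl {g : ContextFreeGrammar T} (α : List (Symbol T g.NT)) : GenL g α α := by
  induction α with
  | nil => exact GenL.nil
  | cons a α ih => exact GenL.cons a ih

theorem rewrites_append {N : Type} {r : ContextFreeRule T N} (u v w : List (Symbol T N))
    (h : r.Rewrites (u ++ v) w) :
    (∃ u', r.Rewrites u u' ∧ w = u' ++ v) ∨ ∃ v', r.Rewrites v v' ∧ w = u ++ v' := by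
  induction u generalizing w with
  | nil => exact Or.inr ⟨w, h, rfl⟩
  | cons a u ih =>
    rw [List.cons_append] at h
    cases h with
    | head s => exact Or.inl ⟨r.output ++ u, ContextFreeRule.Rewrites.head u, by
        rw [List.append_assoc]⟩
    | cons x hrs =>
      rcases ih _ hrs with ⟨u', h1, h2⟩ | ⟨v', h1, h2⟩
      · exact Or.inl ⟨a :: u', ContextFreeRule.Rewrites.cons a h1, by rw [h2]; rfl⟩
      · exact Or.inr ⟨v', h1, by rw [h2]; rfl⟩

theorem GenL.step {g : ContextFreeGrammar T} {α v : List (Symbol T g.NT)} (h : GenL g α v)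
    {r : ContextFreeRule T g.NT} (hr : r ∈ g.rules) {w : List (Symbol T g.NT)}
    (hw : r.Rewrites v w) : GenL g α w := by
  induction h generalizing w with
  | nil => cases hw
  | cons a h ih =>
    cases hw with
    | head s => exact GenL.node r hr (GenL.refl _) h
    | cons x hrs => exact GenL.cons a (ih hrs)
  | node r0 hr0 hu hv ihu ihv =>
    rcases rewrites_append _ _ _ hw with ⟨u', h1, h2⟩ | ⟨v', h1, h2⟩
    · rw [h2]; exact GenL.node r0 hr0 (ihu h1) hv
    · rw [h2]; exact GenL.node r0 hr0 hu (ihv h1)

theorem genL_of_derives {g : ContextFreeGrammar T} {α v : List (Symbol T g.NT)}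
    (h : g.Derives α v) : GenL g α v := by
  induction h with
  | refl => exact GenL.refl _
  | tail _ hp ih =>
    obtain ⟨r, hr, hw⟩ := hp
    exact ih.step hr hw

theorem GenL.derives {g : ContextFreeGrammar T} {α v : List (Symbol T g.NT)}
    (h : GenL g α v) : g.Derives α v := by
  induction h with
  | nil => exact ContextFreeGrammar.Derives.refl _
  | cons a h ih => exact ih.append_left [a]
  | node r hr hu hv ihu ihv =>
    rename_i α u v
    have h1 : g.Produces (Symbol.nonterminal r.input :: α) (r.output ++ α) :=
      ⟨r, hr, ContextFreeRule.Rewrites.head α⟩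
    exact (h1.single.trans (ihu.append_right α)).trans (ihv.append_left u)

/-- Substitution in the middle. -/
theorem derives_subst {g : ContextFreeGrammar T} {α x y z β : List (Symbol T g.NT)}
    (h : g.Derives α (x ++ β ++ z)) (hy : g.Derives β y) : g.Derives α (x ++ y ++ z) :=
  h.trans ((hy.append_left x).append_right z)

theorem cut_genL {g : ContextFreeGrammar T} {b s : ℕ}
    (hb : ∀ r ∈ g.rules, r.output.length ≤ b) (hs : 1 ≤ s) {α v : List (Symbol T g.NT)}
    (h : GenL g α v) : tc v ≤ s * α.length ∨
      ∃ x y z : List (Symbol T g.NT), ∃ r ∈ g.rules, v = x ++ y ++ z ∧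
        GenL g α (x ++ [Symbol.nonterminal r.input] ++ z) ∧
        GenL g [Symbol.nonterminal r.input] y ∧ s < tc y ∧ tc y ≤ b * s := by
  induction h with
  | nil => left; simp [tc]
  | @cons a α v h ih =>
    rcases ih with h1 | ⟨x, y, z, r, hr, h1, h2, h3, h4⟩
    · left
      have h2 := tc_cons_le a v
      rw [List.length_cons, Nat.mul_succ]
      omega
    · refine Or.inr ⟨a :: x, y, z, r, hr, by rw [h1]; rfl, GenL.cons a h2, h3, h4⟩
  | @node r0 hr0 α u v hu hv ihu ihv =>
    rcases ihu with h1 | ⟨x, y, z, r, hr, h1, h2, h3, h4⟩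
    · rcases ihv with k1 | ⟨x, y, z, r, hr, k1, k2, k3, k4⟩
      · by_cases hc : tc u ≤ s
        · left
          rw [tc_append, List.length_cons, Nat.mul_succ]
          omega
        · refine Or.inr ⟨[], u, v, r0, hr0, rfl, ?_, ?_, not_le.1 hc, ?_⟩
          · exact GenL.cons _ hv
          · have := GenL.node r0 hr0 hu GenL.nil
            rwa [List.append_nil] at this
          · calc tc u ≤ s * r0.output.length := h1
              _ ≤ s * b := Nat.mul_le_mul_left _ (hb r0 hr0)
              _ = b * s := Nat.mul_comm _ _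
      · refine Or.inr ⟨u ++ x, y, z, r, hr, by rw [k1]; simp, ?_, k3, k4⟩
        have := GenL.node r0 hr0 hu k2
        simpa using this
    · refine Or.inr ⟨x, y, z ++ v, r, hr, by rw [h1]; simp, ?_, h3, h4⟩
      have := GenL.node r0 hr0 h2 hv
      simpa using this

/-- Cutting a derivation. -/
theorem cut {g : ContextFreeGrammar T} {b s : ℕ}
    (hb : ∀ r ∈ g.rules, r.output.length ≤ b) (hs : 1 ≤ s) {α v : List (Symbol T g.NT)}
    (h : g.Derives α v) : tc v ≤ s * α.length ∨
      ∃ x y z : List (Symbol T g.NT), ∃ r ∈ g.rules, v = x ++ y ++ z ∧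
        g.Derives α (x ++ [Symbol.nonterminal r.input] ++ z) ∧
        g.Derives [Symbol.nonterminal r.input] y ∧ s < tc y ∧ tc y ≤ b * s := by
  rcases cut_genL hb hs (genL_of_derives h) with h1 | ⟨x, y, z, r, hr, h1, h2, h3, h4⟩
  · exact Or.inl h1
  · exact Or.inr ⟨x, y, z, r, hr, h1, h2.derives, h3.derives, h4⟩

end Pool.Agent.CF16
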