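import Pool.Agent.DB70.Box
import Pool.Agent.CF16.Gen

/-!
CF16/Cover: the words of length `m` of a context free language are covered by few digit boxes.
A skeleton is a list of steps; every step cuts a piece out of a list of positions and nonterminals
and replaces it by one nonterminal.
-/

set_option autoImplicit false

namespace Pool.Agent.CF16

open Pool.Agent.DB70

variable {T : Type} {m : ℕ}

/-- The string belonging to a list of positions and nonterminals. -/
def fill {N : Type} (f : Fin m → T) : Fin m ⊕ N → Symbol T N :=
  Sum.elim (fun i => Symbol.terminal (f i)) Symbol.nonterminal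

/-- The positions in a list. -/
def pos {N : Type} (V : List (Fin m ⊕ N)) : List (Fin m) := V.filterMap Sum.getLeft?

theorem pos_append {N : Type} (U V : List (Fin m ⊕ N)) : pos (U ++ V) = pos U ++ pos V :=
  List.filterMap_append

theorem pos_inr {N : Type} (n : N) (V : List (Fin m ⊕ N)) : pos (Sum.inr n :: V) = pos V := by
  simp [pos]

theorem pos_inl {N : Type} (i : Fin m) (V : List (Fin m ⊕ N)) :
    pos (Sum.inl i :: V) = i :: pos V := by
  simp [pos]

theorem tc_map_fill {N : Type} (f : Fin m → T) (V : List (Fin m ⊕ N)) :
    tc (V.map (fill f)) = (pos V).length := by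
  induction V with
  | nil => rfl
  | cons a V ih =>
    cases a with
    | inl i => rw [pos_inl, List.length_cons, ← ih]; rfl
    | inr n => rw [pos_inr, ← ih]; rfl

theorem fill_congr {N : Type} {f f' : Fin m → T} {V : List (Fin m ⊕ N)}
    (h : ∀ p ∈ pos V, f p = f' p) : V.map (fill f) = V.map (fill f') := by
  induction V with
  | nil => rfl
  | cons a V ih =>
    cases a with
    | inl i =>
      rw [pos_inl] at h
      have h1 := ih fun p hp => h p (List.mem_cons_of_mem _ hp)
      have h2 := h i List.mem_cons_self
      rw [List.map_cons, List.map_cons, h1]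
      simp [fill, h2]
    | inr n =>
      rw [pos_inr] at h
      rw [List.map_cons, List.map_cons, ih h]
      rfl

/-- The steps of a skeleton. -/
abbrev St (g : ContextFreeGrammar T) (m : ℕ) :=
  Option ((Fin (m + 1) × Fin (m + 1)) × {r // r ∈ g.rules})

/-- The list after a step. -/
def nxt {g : ContextFreeGrammar T} (V : List (Fin m ⊕ g.NT)) : St g m → List (Fin m ⊕ g.NT)
  | none => V
  | some x => V.take x.1.1 ++ (Sum.inr x.2.1.input :: (V.drop x.1.1).drop x.1.2)

/-- The piece cut out. -/
def mid {g : ContextFreeGrammar T} (V : List (Fin m ⊕ g.NT)) : St g m → List (Fin m ⊕ g.NT)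
  | none => []
  | some x => (V.drop x.1.1).take x.1.2

theorem pos_perm {g : ContextFreeGrammar T} (V : List (Fin m ⊕ g.NT)) (st : St g m) :
    (pos V).Perm (pos (mid V st) ++ pos (nxt V st)) := by
  cases st with
  | none => exact List.Perm.refl _
  | some x =>
    have h1 : V = V.take x.1.1 ++ ((V.drop x.1.1).take x.1.2 ++ (V.drop x.1.1).drop x.1.2) := by
      rw [List.take_append_drop, List.take_append_drop]
    have h2 : pos V = pos (V.take x.1.1) ++ (pos ((V.drop x.1.1).take x.1.2) ++
        pos ((V.drop x.1.1).drop x.1.2)) := by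
      rw [← pos_append, ← pos_append, ← h1]
    have h3 : pos (nxt V (some x)) = pos (V.take x.1.1) ++ pos ((V.drop x.1.1).drop x.1.2) := by
      rw [nxt, pos_append, pos_inr]
    rw [h2, h3, mid, ← List.append_assoc, ← List.append_assoc]
    exact List.Perm.append_right _ List.perm_append_comm

theorem pos_nodup {g : ContextFreeGrammar T} {V : List (Fin m ⊕ g.NT)} (st : St g m)
    (h : (pos V).Nodup) : (pos (nxt V st)).Nodup ∧ ∀ p ∈ pos (nxt V st), p ∉ pos (mid V st) := by
  have h1 := (pos_perm V st).nodup_iff.1 h
  rw [List.nodup_append] at h1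
  exact ⟨h1.2.1, fun p hp hq => h1.2.2 p hq p hp rfl⟩

theorem mem_pos {g : ContextFreeGrammar T} {V : List (Fin m ⊕ g.NT)} (st : St g m) (p : Fin m) :
    p ∈ pos V ↔ p ∈ pos (mid V st) ∨ p ∈ pos (nxt V st) := by
  rw [(pos_perm V st).mem_iff, List.mem_append]

/-- The condition of one step. -/
def OkStep (g : ContextFreeGrammar T) (f : Fin m → T) (V : List (Fin m ⊕ g.NT)) : St g m → Prop
  | none => True
  | some x => g.Derives [Symbol.nonterminal x.2.1.input]
      ((mid V (some x)).map (fill f))

/-- The conditions of a skeleton. -/
def Ok (g : ContextFreeGrammar T) (f : Fin m → T) : List (St g m) → List (Fin m ⊕ g.NT) → Prop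
  | [], V => g.Derives [Symbol.nonterminal g.initial] (V.map (fill f))
  | st :: σ, V => OkStep g f V st ∧ Ok g f σ (nxt V st)

/-- All pieces have at most `L` positions. -/
def Small {g : ContextFreeGrammar T} (L : ℕ) : List (St g m) → List (Fin m ⊕ g.NT) → Prop
  | [], V => (pos V).length ≤ L
  | st :: σ, V => (pos (mid V st)).length ≤ L ∧ Small L σ (nxt V st)

/-- The number of the piece of a position. -/
def colL {g : ContextFreeGrammar T} : List (St g m) → List (Fin m ⊕ g.NT) → ℕ → Fin m → ℕ
  | [], _, i, _ => i
  | st :: σ, V, i, p => if p ∈ pos (mid V st) then i else colL σ (nxt V st) (i + 1) p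

theorem le_colL {g : ContextFreeGrammar T} (σ : List (St g m)) (V : List (Fin m ⊕ g.NT)) (i : ℕ)
    (p : Fin m) : i ≤ colL σ V i p := by
  induction σ generalizing V i with
  | nil => exact le_rfl
  | cons st σ ih =>
    rw [colL]
    split
    · exact le_rfl
    · exact (Nat.le_succ i).trans (ih _ _)

theorem colL_le {g : ContextFreeGrammar T} (σ : List (St g m)) (V : List (Fin m ⊕ g.NT)) (i : ℕ)
    (p : Fin m) : colL σ V i p ≤ i + σ.length := by
  induction σ generalizing V i with
  | nil => exact le_rfl
  | cons st σ ih =>
    rw [colL]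
    split
    · exact Nat.le_add_right _ _
    · have := ih (nxt V st) (i + 1)
      rw [List.length_cons]
      omega

theorem ok_sound {g : ContextFreeGrammar T} {f : Fin m → T} {σ : List (St g m)}
    {V : List (Fin m ⊕ g.NT)} (h : Ok g f σ V) :
    g.Derives [Symbol.nonterminal g.initial] (V.map (fill f)) := by
  induction σ generalizing V with
  | nil => exact h
  | cons st σ ih =>
    have h1 := ih h.2
    cases st with
    | none => exact h1
    | some x =>
      have h2 := h.1
      have h3 : V.map (fill f) = (V.take x.1.1).map (fill f) ++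
          ((V.drop x.1.1).take x.1.2).map (fill f) ++
          ((V.drop x.1.1).drop x.1.2).map (fill f) := by
        rw [← List.map_append, ← List.map_append, List.append_assoc, List.take_append_drop,
          List.take_append_drop]
      rw [h3]
      refine derives_subst (β := [Symbol.nonterminal x.2.1.input]) ?_ h2
      rw [nxt, List.map_append, List.map_cons] at h1
      rw [List.append_assoc, List.singleton_append]
      exact h1

theorem ok_mix {g : ContextFreeGrammar T} {f f' : Fin m → T} {σ : List (St g m)}
    {V : List (Fin m ⊕ g.NT)} {i j : ℕ} {c : Fin m → ℕ} (hn : (pos V).Nodup)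
    (hc : ∀ p ∈ pos V, c p = colL σ V i p) (h : Ok g f σ V) (h' : Ok g f' σ V) :
    Ok g (fun p => if c p = j then f' p else f p) σ V := by
  induction σ generalizing V i with
  | nil =>
    have hc1 : ∀ p ∈ pos V, c p = i := hc
    by_cases hij : i = j
    · have e : V.map (fill fun p => if c p = j then f' p else f p) = V.map (fill f') :=
        fill_congr fun p hp => by rw [hc1 p hp, if_pos hij]
      show g.Derives _ _
      rw [e]
      exact h'
    · have e : V.map (fill fun p => if c p = j then f' p else f p) = V.map (fill f) :=
        fill_congr fun p hp => by rw [hc1 p hp, if_neg hij]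
      show g.Derives _ _
      rw [e]
      exact h
  | cons st σ ih =>
    obtain ⟨hn1, hn2⟩ := pos_nodup st hn
    refine ⟨?_, ih (i := i + 1) hn1 (fun p hp => ?_) h.2 h'.2⟩
    · cases st with
      | none => trivial
      | some x =>
        have hc1 : ∀ p ∈ pos (mid V (some x)), c p = i := by
          intro p hp
          rw [hc p ((mem_pos (some x) p).2 (Or.inl hp)), colL, if_pos hp]
        by_cases hij : i = j
        · have e : (mid V (some x)).map (fill fun p => if c p = j then f' p else f p)
              = (mid V (some x)).map (fill f') :=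
            fill_congr fun p hp => by rw [hc1 p hp, if_pos hij]
          show g.Derives _ _
          rw [e]
          exact h'.1
        · have e : (mid V (some x)).map (fill fun p => if c p = j then f' p else f p)
              = (mid V (some x)).map (fill f) :=
            fill_congr fun p hp => by rw [hc1 p hp, if_neg hij]
          show g.Derives _ _
          rw [e]
          exact h.1
    · rw [hc p ((mem_pos st p).2 (Or.inr hp)), colL, if_neg (hn2 p hp)]

theorem card_le_pos {N : Type} (V : List (Fin m ⊕ N)) (S : Finset (Fin m))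
    (h : ∀ p ∈ S, p ∈ pos V) : S.card ≤ (pos V).length :=
  (Finset.card_le_card fun p hp => List.mem_toFinset.2 (h p hp)).trans (List.toFinset_card_le _)

theorem class_le {g : ContextFreeGrammar T} {L : ℕ} {σ : List (St g m)}
    {V : List (Fin m ⊕ g.NT)} (h : Small L σ V) (i j : ℕ) :
    (Finset.univ.filter fun p => p ∈ pos V ∧ colL σ V i p = j).card ≤ L := by
  induction σ generalizing V i with
  | nil =>
    refine le_trans (card_le_pos V _ fun p hp => (Finset.mem_filter.1 hp).2.1) h
  | cons st σ ih =>
    by_cases hij : j = i
    · refine le_trans (card_le_pos (mid V st) _ fun p hp => ?_) h.1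
      obtain ⟨-, -, h2⟩ := Finset.mem_filter.1 hp
      by_contra hcon
      rw [colL, if_neg hcon] at h2
      have := le_colL σ (nxt V st) (i + 1) p
      omega
    · refine le_trans (Finset.card_le_card fun p hp => ?_) (ih h.2 (i + 1))
      obtain ⟨-, h1, h2⟩ := Finset.mem_filter.1 hp
      have h3 : p ∉ pos (mid V st) := by
        intro hcon
        rw [colL, if_pos hcon] at h2
        exact hij h2.symm
      rw [colL, if_neg h3] at h2
      exact Finset.mem_filter.2 ⟨Finset.mem_univ _, ((mem_pos st p).1 h1).resolve_left h3, h2⟩

theorem exists_steps {g : ContextFreeGrammar T} {b s : ℕ}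
    (hb : ∀ r ∈ g.rules, r.output.length ≤ b) (hb1 : 1 ≤ b) (hs : 1 ≤ s) (f : Fin m → T)
    (n : ℕ) (V : List (Fin m ⊕ g.NT)) (hV : V.length ≤ m) (hp : (pos V).length ≤ s * (n + 1))
    (hd : g.Derives [Symbol.nonterminal g.initial] (V.map (fill f))) :
    ∃ σ : List (St g m), σ.length = n ∧ Ok g f σ V ∧ Small (b * s) σ V := by
  have hsb : s ≤ b * s := Nat.le_mul_of_pos_left s hb1
  induction n generalizing V with
  | zero =>
    refine ⟨[], rfl, hd, ?_⟩
    show (pos V).length ≤ b * s
    omega
  | succ n ih =>
    rcases cut hb hs hd with h1 | ⟨x, y, z, r, hr, h1, h2, h3, h4, h5⟩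
    · rw [tc_map_fill, List.length_singleton, mul_one] at h1
      obtain ⟨σ, k1, k2, k3⟩ := ih V hV (by
        calc (pos V).length ≤ s := h1
          _ ≤ s * (n + 1) := Nat.le_mul_of_pos_right s (Nat.succ_pos n)) hd
      refine ⟨none :: σ, by rw [List.length_cons, k1], ⟨trivial, k2⟩, ?_, k3⟩
      show (pos ([] : List (Fin m ⊕ g.NT))).length ≤ b * s
      exact Nat.zero_le _
    · have hlen : x.length + y.length + z.length = V.length := by
        have := congrArg List.length h1
        rw [List.length_map, List.length_append, List.length_append] at this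
        omega
      have hx : (V.take x.length).map (fill f) = x := by
        rw [List.map_take, h1, List.append_assoc, List.take_left']
        rfl
      have hyz : (V.drop x.length).map (fill f) = y ++ z := by
        rw [List.map_drop, h1, List.append_assoc, List.drop_left']
        rfl
      have hy : ((V.drop x.length).take y.length).map (fill f) = y := by
        rw [List.map_take, hyz, List.take_left']
        rfl
      have hz : ((V.drop x.length).drop y.length).map (fill f) = z := by
        rw [List.map_drop, hyz, List.drop_left']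
        rfl
      have hty : tc y = (pos ((V.drop x.length).take y.length)).length := by
        rw [← tc_map_fill f, hy]
      obtain ⟨st, hst⟩ : ∃ st : St g m, st = some ((⟨x.length, by omega⟩,
        ⟨y.length, by omega⟩), ⟨r, hr⟩) := ⟨_, rfl⟩
      have hmid : mid V st = (V.drop x.length).take y.length := by rw [hst]; rfl
      have hnxt : nxt V st = V.take x.length ++ (Sum.inr r.input ::
          (V.drop x.length).drop y.length) := by rw [hst]; rfl
      have hperm := (pos_perm V st).length_eq
      rw [List.length_append, hmid, ← hty] at hperm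
      have hylen : 1 ≤ y.length := by
        rcases Nat.eq_zero_or_pos y.length with h0 | h0
        · rw [List.length_eq_zero_iff.1 h0] at h4
          simp [tc] at h4
        · exact h0
      obtain ⟨σ, k1, k2, k3⟩ := ih (nxt V st) (by
          rw [hnxt, List.length_append, List.length_cons, List.length_take, List.length_drop,
            List.length_drop]
          omega) (by
          have e : s * (n + 1 + 1) = s * (n + 1) + s := by ring
          omega) (by
          rw [hnxt, List.map_append, List.map_cons, hx, hz]
          rw [List.append_assoc, List.singleton_append] at h2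
          exact h2)
      refine ⟨st :: σ, by rw [List.length_cons, k1], ⟨?_, k2⟩, ?_, k3⟩
      · rw [hst]
        show g.Derives [Symbol.nonterminal r.input] (((V.drop x.length).take y.length).map (fill f))
        rw [hy]
        exact h3
      · rw [hmid, ← hty]
        exact h5

theorem cover {k : ℕ} (g : ContextFreeGrammar (Fin k)) (b : ℕ)
    (hb : ∀ r ∈ g.rules, r.output.length ≤ b) (hb1 : 1 ≤ b) (m s : ℕ) (hs : 1 ≤ s) :
    ∃ R ≤ ((m + 1) ^ 2 * g.rules.card + 1) ^ (m / s + 1),
      ∃ (col : Fin R → Fin m → Fin (m / s + 2)) (B : Fin R → Set (Fin m → Fin k)),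
        (∀ r, IsBox (col r) (B r)) ∧
        (∀ r j, (Finset.univ.filter fun i => col r i = j).card ≤ b * s) ∧
        (∀ r, ∀ f ∈ B r, List.ofFn f ∈ g.language) ∧
        (∀ f : Fin m → Fin k, List.ofFn f ∈ g.language → ∃ r, f ∈ B r) := by
  classical
  obtain ⟨V0, hV0⟩ : ∃ V0 : List (Fin m ⊕ g.NT), V0 = (List.finRange m).map Sum.inl := ⟨_, rfl⟩
  have hpos : pos V0 = List.finRange m := by
    rw [hV0]
    generalize List.finRange m = l
    induction l with
    | nil => rfl
    | cons a l ih => rw [List.map_cons, pos_inl, ih]
  have hmem : ∀ p : Fin m, p ∈ pos V0 := fun p => by rw [hpos]; exact List.mem_finRange p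
  have hnd : (pos V0).Nodup := by rw [hpos]; exact List.nodup_finRange m
  have hfill : ∀ f : Fin m → Fin k, V0.map (fill f) = (List.ofFn f).map Symbol.terminal := by
    intro f
    rw [hV0, List.map_map, List.ofFn_eq_map, List.map_map]
    rfl
  obtain ⟨n, hn⟩ : ∃ n, n = m / s + 1 := ⟨_, rfl⟩
  let I := {σ : Fin n → St g m // Small (b * s) (List.ofFn σ) V0}
  have hI : Fintype.card I ≤ ((m + 1) ^ 2 * g.rules.card + 1) ^ n := by
    refine (Fintype.card_subtype_le _).trans (le_of_eq ?_)
    rw [Fintype.card_fun, Fintype.card_fin, Fintype.card_option, Fintype.card_prod,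
      Fintype.card_prod, Fintype.card_fin, Fintype.card_coe]
    ring
  obtain ⟨e, -⟩ : ∃ e : Fin (Fintype.card I) ≃ I, True := ⟨(Fintype.equivFin I).symm, trivial⟩
  have hlt : ∀ (r : Fin (Fintype.card I)) (p : Fin m),
      colL (List.ofFn (e r).1) V0 0 p < m / s + 2 := by
    intro r p
    have := colL_le (List.ofFn (e r).1) V0 0 p
    rw [List.length_ofFn] at this
    omega
  refine ⟨Fintype.card I, by rw [← hn]; exact hI,
    fun r p => ⟨colL (List.ofFn (e r).1) V0 0 p, hlt r p⟩,
    fun r => {f | Ok g f (List.ofFn (e r).1) V0}, ?_, ?_, ?_, ?_⟩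
  · intro r f hf f' hf' j
    have h1 : Ok g (fun p => if colL (List.ofFn (e r).1) V0 0 p = j.1 then f' p else f p)
        (List.ofFn (e r).1) V0 := ok_mix (i := 0) hnd (fun _ _ => rfl) hf hf'
    have h2 : (fun p => if (⟨colL (List.ofFn (e r).1) V0 0 p, hlt r p⟩ : Fin (m / s + 2)) = j
        then f' p else f p) =
        (fun p => if colL (List.ofFn (e r).1) V0 0 p = j.1 then f' p else f p) := by
      funext p
      by_cases h3 : colL (List.ofFn (e r).1) V0 0 p = j.1
      · rw [if_pos h3, if_pos (Fin.ext h3)]
      · rw [if_neg h3, if_neg fun h4 => h3 (Fin.ext_iff.1 h4)]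
    show Ok g _ _ _
    rw [h2]
    exact h1
  · intro r j
    refine le_trans (Finset.card_le_card fun p hp => ?_)
      (class_le (e r).2 0 j.1)
    exact Finset.mem_filter.2 ⟨Finset.mem_univ _, hmem p, Fin.ext_iff.1 (Finset.mem_filter.1 hp).2⟩
  · intro r f hf
    have h1 := ok_sound hf
    rw [hfill] at h1
    exact h1
  · intro f hf
    have h1 : g.Derives [Symbol.nonterminal g.initial] (V0.map (fill f)) := by
      rw [hfill]; exact hf
    have h2 : m < s * (m / s + 1) := Nat.lt_mul_div_succ m hs
    obtain ⟨σ, k1, k2, k3⟩ := exists_steps hb hb1 hs f n V0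
      (by rw [hV0, List.length_map, List.length_finRange])
      (by
        rw [hpos, List.length_finRange, hn]
        calc m ≤ s * (m / s + 1) := h2.le
          _ ≤ s * (m / s + 1 + 1) := Nat.mul_le_mul_left _ (Nat.le_succ _)) h1
    subst k1
    have k4 : List.ofFn σ.get = σ := List.ofFn_get σ
    refine ⟨e.symm ⟨σ.get, by rw [k4]; exact k3⟩, ?_⟩
    show Ok g f _ V0
    rw [Equiv.apply_symm_apply, k4]
    exact k2

end Pool.Agent.CF16
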