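import Pool.Agent.CF16.Gen

/-!
CF16/Growth: if the loops of a context-free grammar are determined by their lengths then the
language has polynomial growth.
-/

set_option autoImplicit false

namespace Pool.Agent.CF16

variable {T : Type}

/-- The terminal words derived from a string. -/
def Lng (g : ContextFreeGrammar T) (α : List (Symbol T g.NT)) : Set (List T) :=
  {w | g.Derives α (w.map Symbol.terminal)}

/-- `Z` occurs between terminal words in a string derived from `X`. -/
def Rch (g : ContextFreeGrammar T) (X Z : g.NT) : Prop :=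
  ∃ x z : List T, g.Derives [Symbol.nonterminal X]
    (x.map Symbol.terminal ++ [Symbol.nonterminal Z] ++ z.map Symbol.terminal)

theorem Rch.refl {g : ContextFreeGrammar T} (X : g.NT) : Rch g X X :=
  ⟨[], [], ContextFreeGrammar.Derives.refl _⟩

theorem ctx_trans {g : ContextFreeGrammar T} {X Y : g.NT} {α : List (Symbol T g.NT)}
    {x z x' z' : List T}
    (h : g.Derives [Symbol.nonterminal X]
      (x.map Symbol.terminal ++ [Symbol.nonterminal Y] ++ z.map Symbol.terminal))
    (h' : g.Derives [Symbol.nonterminal Y]
      (x'.map Symbol.terminal ++ α ++ z'.map Symbol.terminal)) :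
    g.Derives [Symbol.nonterminal X]
      ((x ++ x').map Symbol.terminal ++ α ++ (z' ++ z).map Symbol.terminal) := by
  have h1 := derives_subst h h'
  have h2 : x.map Symbol.terminal ++ (x'.map Symbol.terminal ++ α ++ z'.map Symbol.terminal) ++
      z.map Symbol.terminal = (x ++ x').map Symbol.terminal ++ α ++
      (z' ++ z).map Symbol.terminal := by
    simp [List.map_append, List.append_assoc]
  rwa [h2] at h1

theorem Rch.trans {g : ContextFreeGrammar T} {X Y Z : g.NT} (h : Rch g X Y) (h' : Rch g Y Z) :
    Rch g X Z := by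
  obtain ⟨x, z, h1⟩ := h
  obtain ⟨x', z', h2⟩ := h'
  exact ⟨x ++ x', z' ++ z, ctx_trans h1 h2⟩

theorem GenL.split {g : ContextFreeGrammar T} {α β v : List (Symbol T g.NT)}
    (h : GenL g (α ++ β) v) : ∃ v1 v2, v = v1 ++ v2 ∧ GenL g α v1 ∧ GenL g β v2 := by
  induction α generalizing v with
  | nil => exact ⟨[], v, rfl, GenL.nil, h⟩
  | cons a α ih =>
    rw [List.cons_append] at h
    cases h with
    | cons _ h =>
      obtain ⟨v1, v2, h1, h2, h3⟩ := ih h
      exact ⟨a :: v1, v2, by rw [h1]; rfl, GenL.cons a h2, h3⟩
    | node r hr hu hv =>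
      obtain ⟨v1, v2, h1, h2, h3⟩ := ih hv
      exact ⟨_ ++ v1, v2, by rw [h1, List.append_assoc], GenL.node r hr hu h2, h3⟩

/-- Splitting a derivation of a terminal word. -/
theorem lng_append {g : ContextFreeGrammar T} {α β : List (Symbol T g.NT)} {w : List T}
    (h : w ∈ Lng g (α ++ β)) : ∃ u ∈ Lng g α, ∃ v ∈ Lng g β, w = u ++ v := by
  obtain ⟨v1, v2, h1, h2, h3⟩ := (genL_of_derives h).split
  obtain ⟨w1, w2, h4, h5, h6⟩ := List.map_eq_append_iff.1 h1
  refine ⟨w1, ?_, w2, ?_, h4⟩
  · show g.Derives α _
    rw [h5]; exact h2.derives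
  · show g.Derives β _
    rw [h6]; exact h3.derives

theorem decomp {g : ContextFreeGrammar T} {X : g.NT} {α v : List (Symbol T g.NT)}
    (h : GenL g α v) : ∀ Z : g.NT, Symbol.nonterminal Z ∈ α → Rch g Z X → ∀ w : List T,
      v = w.map Symbol.terminal → ∀ x0 z0 : List T,
      g.Derives [Symbol.nonterminal X] (x0.map Symbol.terminal ++ α ++ z0.map Symbol.terminal) →
      ∃ r ∈ g.rules, Rch g r.input X ∧ (∀ Z, Symbol.nonterminal Z ∈ r.output → ¬ Rch g Z X) ∧
        ∃ u w' v' : List T, g.Derives [Symbol.nonterminal X]
          (u.map Symbol.terminal ++ [Symbol.nonterminal r.input] ++ v'.map Symbol.terminal) ∧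
          w' ∈ Lng g r.output ∧ x0 ++ w ++ z0 = u ++ w' ++ v' := by
  induction h with
  | nil => intro Z hZ; exact absurd hZ List.not_mem_nil
  | @cons a α v h ih =>
    intro Z hZ hZX w hw x0 z0 hd
    obtain ⟨t, w', rfl, ht, hw'⟩ := List.map_eq_cons_iff.1 hw.symm
    subst ht
    rcases List.mem_cons.1 hZ with hZ1 | hZ1
    · cases hZ1
    · have h1 := ih Z hZ1 hZX w' hw'.symm (x0 ++ [t]) z0 (by
        have e : (x0 ++ [t]).map Symbol.terminal ++ α ++ z0.map Symbol.terminal =
            x0.map Symbol.terminal ++ (Symbol.terminal t :: α) ++ z0.map Symbol.terminal := by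
          simp
        rw [e]; exact hd)
      obtain ⟨r, hr, h2, h3, u, w'', v', h4, h5, h6⟩ := h1
      exact ⟨r, hr, h2, h3, u, w'', v', h4, h5, by rw [← h6]; simp⟩
  | @node r0 hr0 α u0 v0 hu hv ihu ihv =>
    intro Z hZ hZX w hw x0 z0 hd
    obtain ⟨w1, w2, rfl, h1, h2⟩ := List.map_eq_append_iff.1 hw.symm
    have hd1 : g.Derives [Symbol.nonterminal X] (x0.map Symbol.terminal ++
        [Symbol.nonterminal r0.input] ++ (w2 ++ z0).map Symbol.terminal) := by
      have k1 := derives_subst (g := g) (α := [Symbol.nonterminal X])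
        (x := x0.map Symbol.terminal ++ [Symbol.nonterminal r0.input]) (β := α)
        (z := z0.map Symbol.terminal) (y := w2.map Symbol.terminal)
        (by
          have e : x0.map Symbol.terminal ++ [Symbol.nonterminal r0.input] ++ α ++
              z0.map Symbol.terminal = x0.map Symbol.terminal ++
              (Symbol.nonterminal r0.input :: α) ++ z0.map Symbol.terminal := by simp
          rw [e]; exact hd)
        (by rw [h2]; exact hv.derives)
      have e : x0.map Symbol.terminal ++ [Symbol.nonterminal r0.input] ++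
          w2.map Symbol.terminal ++ z0.map Symbol.terminal = x0.map Symbol.terminal ++
          [Symbol.nonterminal r0.input] ++ (w2 ++ z0).map Symbol.terminal := by simp
      rwa [e] at k1
    rcases List.mem_cons.1 hZ with hZ1 | hZ1
    · have hZ2 : Z = r0.input := Symbol.nonterminal.inj hZ1
      by_cases hgood : ∀ Z, Symbol.nonterminal Z ∈ r0.output → ¬ Rch g Z X
      · refine ⟨r0, hr0, hZ2 ▸ hZX, hgood, x0, w1, w2 ++ z0, hd1, ?_, by simp⟩
        show g.Derives _ _
        rw [h1]; exact hu.derives
      · push Not at hgood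
        obtain ⟨Z', hZ', hZX'⟩ := hgood
        have hd2 : g.Derives [Symbol.nonterminal X] (x0.map Symbol.terminal ++
            r0.output ++ (w2 ++ z0).map Symbol.terminal) :=
          derives_subst hd1 (ContextFreeGrammar.Produces.single
            ⟨r0, hr0, ContextFreeRule.Rewrites.input_output⟩)
        obtain ⟨r, hr, k2, k3, u, w'', v', k4, k5, k6⟩ :=
          ihu Z' hZ' hZX' w1 h1.symm x0 (w2 ++ z0) hd2
        exact ⟨r, hr, k2, k3, u, w'', v', k4, k5, by rw [← k6]; simp⟩
    · have hd3 : g.Derives [Symbol.nonterminal X] ((x0 ++ w1).map Symbol.terminal ++ α ++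
          z0.map Symbol.terminal) := by
        have k1 := derives_subst (g := g) (α := [Symbol.nonterminal X])
          (x := x0.map Symbol.terminal) (β := [Symbol.nonterminal r0.input])
          (z := α ++ z0.map Symbol.terminal) (y := w1.map Symbol.terminal)
          (by
            have e : x0.map Symbol.terminal ++ [Symbol.nonterminal r0.input] ++ (α ++
                z0.map Symbol.terminal) = x0.map Symbol.terminal ++
                (Symbol.nonterminal r0.input :: α) ++ z0.map Symbol.terminal := by simp
            rw [e]; exact hd)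
          (by
            rw [h1]
            exact (ContextFreeGrammar.Produces.single
              ⟨r0, hr0, ContextFreeRule.Rewrites.input_output⟩).trans hu.derives)
        have e : x0.map Symbol.terminal ++ w1.map Symbol.terminal ++ (α ++
            z0.map Symbol.terminal) = (x0 ++ w1).map Symbol.terminal ++ α ++
            z0.map Symbol.terminal := by simp
        rwa [e] at k1
      obtain ⟨r, hr, k2, k3, u, w'', v', k4, k5, k6⟩ :=
        ihv Z hZ1 hZX w2 h2.symm (x0 ++ w1) z0 hd3
      exact ⟨r, hr, k2, k3, u, w'', v', k4, k5, by rw [← k6]; simp⟩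

end Pool.Agent.CF16
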