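import Pool.Agent.CF16.Cover

/-!
CF16/Main: context free sets with bounded representation function have sumsets of lower density 0.
-/

set_option autoImplicit false

namespace Pool.Agent.CF16

open Pool.Agent.DB70 Filter

theorem val_ofDigits {k : ℕ} : ∀ {m : ℕ} (f : Fin m → Fin k),
    Nat.ofDigits k ((List.ofFn f).map Fin.val) = val f := by
  intro m
  induction m with
  | zero => intro f; simp [val]
  | succ m ih =>
    intro f
    rw [List.ofFn_succ, List.map_cons, Nat.ofDigits_cons, ih, val, val, Fin.sum_univ_succ,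
      Finset.mul_sum]
    congr 1
    · simp
    · refine Finset.sum_congr rfl fun i _ => ?_
      rw [Fin.val_succ]
      ring

/-- Polynomials grow slower than powers. -/
theorem poly_le {c r : ℝ} (hc : 0 < c) (hr : 1 < r) (D e : ℕ) :
    ∀ᶠ m : ℕ in atTop, ((m + 1 : ℝ) ^ 2 * D + 1) ^ e ≤ c * r ^ m := by
  have h1 := tendsto_pow_const_div_const_pow_of_one_lt (2 * e) hr
  have h2 : (0 : ℝ) < c / (4 * D + 1) ^ e := by positivity
  filter_upwards [h1.eventually (gt_mem_nhds h2), eventually_ge_atTop 1] with m hm1 hm2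
  have hm3 : (1 : ℝ) ≤ m := by exact_mod_cast hm2
  have hr0 : (0 : ℝ) < r := by linarith
  have h4 : ((m + 1 : ℝ) ^ 2 * D + 1) ≤ (4 * D + 1) * (m : ℝ) ^ 2 := by
    have hD : (0 : ℝ) ≤ D := Nat.cast_nonneg D
    have h5 : (m + 1 : ℝ) ^ 2 ≤ 4 * (m : ℝ) ^ 2 := by nlinarith
    have h6 : (1 : ℝ) ≤ (m : ℝ) ^ 2 := by nlinarith
    nlinarith
  calc ((m + 1 : ℝ) ^ 2 * D + 1) ^ e ≤ ((4 * D + 1) * (m : ℝ) ^ 2) ^ e := by
        gcongr
    _ = (4 * D + 1) ^ e * (m : ℝ) ^ (2 * e) := by rw [mul_pow, ← pow_mul]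
    _ ≤ c * r ^ m := by
        rw [div_lt_div_iff₀ (by positivity) (by positivity)] at hm1
        linarith

/-- Context free sets with bounded representation function have very thin sumsets. -/
theorem thin {k : ℕ} (hk : 2 ≤ k) {A : Set ℕ} {C : ℕ}
    (hr : ∀ n : ℕ, {p : ℕ × ℕ | p.1 ∈ A ∧ p.2 ∈ A ∧ p.1 + p.2 = n}.ncard ≤ C)
    (hA : Language.IsContextFree
      ({w : List (Fin k) | Nat.ofDigits k (w.map Fin.val) ∈ A} : Language (Fin k)))
    {η : ℝ} (hη : 0 < η) : ∃ N₀ : ℕ, ∀ N : ℕ, N₀ ≤ N →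
      (({n : ℕ | ∃ a ∈ A, ∃ b ∈ A, a + b = n} ∩ Set.Iio N).ncard : ℝ) ≤ (N : ℝ) ^ η := by
  obtain ⟨g, hg⟩ := hA
  have hlang : ∀ {m : ℕ} (f : Fin m → Fin k), List.ofFn f ∈ g.language ↔ val f ∈ A := by
    intro m f
    rw [hg, ← val_ofDigits]
    rfl
  obtain ⟨b, hb1, hb⟩ : ∃ b : ℕ, 1 ≤ b ∧ ∀ r ∈ g.rules, r.output.length ≤ b :=
    ⟨g.rules.sup (fun r => r.output.length) + 1, Nat.le_add_left _ _,
      fun r hr => (Finset.le_sup (f := fun r : ContextFreeRule (Fin k) g.NT => r.output.length)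
        hr).trans (Nat.le_succ _)⟩
  obtain ⟨c, hc⟩ : ∃ c, c = Nat.log 2 C := ⟨_, rfl⟩
  obtain ⟨Q, hQ⟩ := exists_nat_gt (4 / η)
  have hQ0 : (0 : ℝ) < Q := lt_trans (by positivity) hQ
  have hQ1 : 1 ≤ Q := by exact_mod_cast hQ0
  have hQη : 1 / (Q : ℝ) ≤ η / 4 := by
    rw [div_lt_iff₀ hη] at hQ
    rw [div_le_div_iff₀ hQ0 (by norm_num)]
    linarith
  obtain ⟨q, hq⟩ : ∃ q, q = b * (c + 1) * Q := ⟨_, rfl⟩
  have hq1 : 1 ≤ q := by rw [hq]; exact Nat.mul_pos (Nat.mul_pos hb1 (Nat.succ_pos c)) hQ1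
  have hk1 : (1 : ℝ) < k := by exact_mod_cast (show 1 < k by omega)
  have hk0 : (0 : ℝ) < k := by linarith
  obtain ⟨ρ, hρ⟩ : ∃ ρ : ℝ, ρ = (k : ℝ) ^ (η / 2) := ⟨_, rfl⟩
  have hρ1 : 1 < ρ := by rw [hρ]; exact Real.one_lt_rpow hk1 (by positivity)
  have hρ0 : 0 < ρ := by linarith
  obtain ⟨m₀, hm₀⟩ := eventually_atTop.1
    ((poly_le (c := 1 / ρ ^ 2) (by positivity) hρ1 g.rules.card (2 * (2 * q + 1))).and
      (eventually_ge_atTop (q + 1)))
  refine ⟨k ^ m₀ + 2, fun N hN => ?_⟩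
  obtain ⟨m, hm⟩ : ∃ m, m = Nat.clog k N := ⟨_, rfl⟩
  have hNm : N ≤ k ^ m := by rw [hm]; exact Nat.le_pow_clog (by omega) N
  have hmN : k ^ (m - 1) < N := by rw [hm]; exact Nat.pow_pred_clog_lt_self (by omega) (by omega)
  have hm0m : m₀ ≤ m := by
    by_contra hcon
    have h1 : k ^ m ≤ k ^ m₀ := Nat.pow_le_pow_right (by omega) (by omega)
    omega
  obtain ⟨hp, hqm⟩ := hm₀ m hm0m
  obtain ⟨s, hs⟩ : ∃ s, s = m / q := ⟨_, rfl⟩
  have hs1 : 1 ≤ s := by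
    rw [hs, Nat.le_div_iff_mul_le hq1]
    omega
  have hsq : s * q ≤ m := by rw [hs]; exact Nat.div_mul_le_self m q
  have hns : m < 2 * q * s := by
    have h1 : m < q * (m / q + 1) := Nat.lt_mul_div_succ m hq1
    rw [← hs] at h1
    nlinarith
  have hdiv : m / s + 1 ≤ 2 * q + 1 := by
    have h1 : m / s ≤ 2 * q := by
      refine Nat.div_le_of_le_mul ?_
      nlinarith
    omega
  obtain ⟨R, hR, col, B, hB, hl, hBA, hcov⟩ := cover g b hb hb1 m s hs1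
  have h1 := cover_card (by omega) hr (b * s) R col hl B hB
    (fun r f hf => (hlang f).1 (hBA r f hf)) (fun f hf => hcov f ((hlang f).2 hf))
  rw [← hc] at h1
  have h2 : ({n : ℕ | ∃ a ∈ A, ∃ b ∈ A, a + b = n} ∩ Set.Iio N).ncard ≤
      (R * k ^ (b * s * c)) ^ 2 := by
    refine (sum_card A N).trans (Nat.pow_le_pow_left (le_trans ?_ h1) 2)
    refine Set.ncard_le_ncard (Set.inter_subset_inter_right _ (Set.Iio_subset_Iio hNm)) ?_
    exact (Set.finite_Iio _).inter_of_right _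
  have hR2 : (R : ℝ) ^ 2 ≤ ((m + 1 : ℝ) ^ 2 * g.rules.card + 1) ^ (2 * (2 * q + 1)) := by
    have h3 : R ^ 2 ≤ ((m + 1) ^ 2 * g.rules.card + 1) ^ (2 * (2 * q + 1)) := by
      rw [mul_comm 2 (2 * q + 1), pow_mul]
      exact Nat.pow_le_pow_left (hR.trans (Nat.pow_le_pow_right (Nat.succ_pos _) hdiv)) 2
    exact_mod_cast h3
  have h4 : ((k : ℝ) ^ (b * s * c)) ^ 2 ≤ ρ ^ m := by
    have h5 : b * s * c * Q ≤ m := by
      calc b * s * c * Q ≤ b * s * (c + 1) * Q := by gcongr; omega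
        _ = s * q := by rw [hq]; ring
        _ ≤ m := hsq
    have h6 : ((b * s * c : ℕ) : ℝ) ≤ η / 4 * m := by
      have h7 : ((b * s * c : ℕ) : ℝ) * Q ≤ m := by exact_mod_cast h5
      calc ((b * s * c : ℕ) : ℝ) ≤ m / Q := by rw [le_div_iff₀ hQ0]; exact h7
        _ = 1 / Q * m := by ring
        _ ≤ η / 4 * m := mul_le_mul_of_nonneg_right hQη (Nat.cast_nonneg m)
    rw [hρ, ← Real.rpow_natCast, ← Real.rpow_natCast, ← Real.rpow_natCast, ← Real.rpow_mul hk0.le,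
      ← Real.rpow_mul hk0.le]
    refine Real.rpow_le_rpow_of_exponent_le hk1.le ?_
    push_cast at h6 ⊢
    linarith
  have h8 : ρ ^ m * ρ ^ m / ρ ^ 2 ≤ (N : ℝ) ^ η := by
    have h9 : (((k ^ (m - 1) : ℕ) : ℝ)) ^ η ≤ (N : ℝ) ^ η := by
      refine Real.rpow_le_rpow (by positivity) ?_ hη.le
      exact_mod_cast hmN.le
    refine le_trans (le_of_eq ?_) h9
    have hm1 : ((m - 1 : ℕ) : ℝ) = (m : ℝ) - 1 := by
      rw [Nat.cast_sub (by omega)]; norm_num
    rw [hρ, ← Real.rpow_natCast, ← Real.rpow_natCast, ← Real.rpow_mul hk0.le,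
      ← Real.rpow_mul hk0.le, ← Real.rpow_add hk0, ← Real.rpow_sub hk0, Nat.cast_pow,
      ← Real.rpow_natCast, ← Real.rpow_mul hk0.le, hm1]
    congr 1
    push_cast
    ring
  calc (({n : ℕ | ∃ a ∈ A, ∃ b ∈ A, a + b = n} ∩ Set.Iio N).ncard : ℝ)
      ≤ ((R : ℝ) * (k : ℝ) ^ (b * s * c)) ^ 2 := by exact_mod_cast h2
    _ = (R : ℝ) ^ 2 * ((k : ℝ) ^ (b * s * c)) ^ 2 := by rw [mul_pow]
    _ ≤ (1 / ρ ^ 2 * ρ ^ m) * ρ ^ m :=
        mul_le_mul (hR2.trans hp) h4 (by positivity) (by positivity)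
    _ = ρ ^ m * ρ ^ m / ρ ^ 2 := by ring
    _ ≤ (N : ℝ) ^ η := h8

/-- The digits may be read in either direction. -/
theorem isContextFree_reverse {k : ℕ} {A : Set ℕ}
    (h : Language.IsContextFree
      ({w : List (Fin k) | Nat.ofDigits k (w.reverse.map Fin.val) ∈ A} : Language (Fin k))) :
    Language.IsContextFree
      ({w : List (Fin k) | Nat.ofDigits k (w.map Fin.val) ∈ A} : Language (Fin k)) := by
  have h1 := Language.IsContextFree.reverse h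
  have h2 : Language.reverse ({w : List (Fin k) | Nat.ofDigits k (w.reverse.map Fin.val) ∈ A} :
      Language (Fin k)) =
      ({w : List (Fin k) | Nat.ofDigits k (w.map Fin.val) ∈ A} : Language (Fin k)) := by
    refine Set.ext fun w => ?_
    show Nat.ofDigits k (w.reverse.reverse.map Fin.val) ∈ A ↔
      Nat.ofDigits k (w.map Fin.val) ∈ A
    rw [List.reverse_reverse]
  rw [h2] at h1
  exact h1

end Pool.Agent.CF16
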