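import Pool.Agent.CF16.Growth

/-!
CF16/Poly: polynomial growth.
-/

set_option autoImplicit false

namespace Pool.Agent.CF16

variable {T : Type}

/-- The number of words of length `m` is bounded by a polynomial in `m`. -/
def Poly (S : Set (List T)) : Prop :=
  ∃ C d : ℕ, ∀ m : ℕ, {w : List T | w ∈ S ∧ w.length = m}.ncard ≤ C * (m + 1) ^ d

theorem fin_len [Finite T] (S : Set (List T)) (m : ℕ) :
    {w : List T | w ∈ S ∧ w.length = m}.Finite :=
  (List.finite_length_eq T m).subset fun _ h => h.2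

theorem Poly.mono [Finite T] {S S' : Set (List T)} (h : Poly S') (hs : S ⊆ S') : Poly S := by
  obtain ⟨C, d, h⟩ := h
  refine ⟨C, d, fun m => le_trans ?_ (h m)⟩
  have h1 : {w : List T | w ∈ S ∧ w.length = m} ⊆ {w : List T | w ∈ S' ∧ w.length = m} :=
    fun w hw => ⟨hs hw.1, hw.2⟩
  exact Set.ncard_le_ncard h1 (fin_len S' m)

theorem Poly.empty : Poly (∅ : Set (List T)) := by
  refine ⟨0, 0, fun m => ?_⟩
  have : {w : List T | w ∈ (∅ : Set (List T)) ∧ w.length = m} = ∅ := by
    ext w; simp
  rw [this, Set.ncard_empty]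
  exact Nat.zero_le _

theorem Poly.single (t : List T) : Poly ({t} : Set (List T)) := by
  refine ⟨1, 0, fun m => ?_⟩
  rw [pow_zero, mul_one]
  refine (Set.ncard_le_ncard (t := {t}) (fun w hw => hw.1) (Set.finite_singleton t)).trans ?_
  rw [Set.ncard_singleton]

theorem Poly.union [Finite T] {S S' : Set (List T)} (h : Poly S) (h' : Poly S') :
    Poly (S ∪ S') := by
  obtain ⟨C, d, h⟩ := h
  obtain ⟨C', d', h'⟩ := h'
  refine ⟨C + C', d + d', fun m => ?_⟩
  have h1 : {w : List T | w ∈ S ∪ S' ∧ w.length = m} =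
      {w : List T | w ∈ S ∧ w.length = m} ∪ {w : List T | w ∈ S' ∧ w.length = m} := by
    ext w
    exact ⟨fun h => h.1.elim (fun k => Or.inl ⟨k, h.2⟩) (fun k => Or.inr ⟨k, h.2⟩),
      fun h => h.elim (fun k => ⟨Or.inl k.1, k.2⟩) (fun k => ⟨Or.inr k.1, k.2⟩)⟩
  rw [h1]
  have h2 : (m + 1) ^ d ≤ (m + 1) ^ (d + d') := Nat.pow_le_pow_right (Nat.succ_pos m) (by omega)
  have h3 : (m + 1) ^ d' ≤ (m + 1) ^ (d + d') := Nat.pow_le_pow_right (Nat.succ_pos m) (by omega)
  calc _ ≤ C * (m + 1) ^ d + C' * (m + 1) ^ d' :=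
        (Set.ncard_union_le _ _).trans (Nat.add_le_add (h m) (h' m))
    _ ≤ C * (m + 1) ^ (d + d') + C' * (m + 1) ^ (d + d') :=
        Nat.add_le_add (Nat.mul_le_mul_left _ h2) (Nat.mul_le_mul_left _ h3)
    _ = (C + C') * (m + 1) ^ (d + d') := by ring

theorem Poly.biUnion [Finite T] {ι : Type} (s : Finset ι) (S : ι → Set (List T))
    (h : ∀ i ∈ s, Poly (S i)) : Poly {w | ∃ i ∈ s, w ∈ S i} := by
  classical
  induction s using Finset.induction_on with
  | empty =>
    refine Poly.mono Poly.empty ?_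
    rintro w ⟨i, hi, -⟩
    exact absurd hi (Finset.notMem_empty i)
  | insert i s hi ih =>
    refine Poly.mono ((h i (Finset.mem_insert_self i s)).union
      (ih fun j hj => h j (Finset.mem_insert_of_mem hj))) ?_
    rintro w ⟨j, hj, hw⟩
    rcases Finset.mem_insert.1 hj with rfl | hj'
    · exact Or.inl hw
    · exact Or.inr ⟨j, hj', hw⟩

theorem Poly.concat [Finite T] {S S' : Set (List T)} (h : Poly S) (h' : Poly S') :
    Poly {w | ∃ u ∈ S, ∃ v ∈ S', w = u ++ v} := by
  obtain ⟨C, d, h⟩ := h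
  obtain ⟨C', d', h'⟩ := h'
  refine ⟨C * C', d + d' + 1, fun m => ?_⟩
  have h1 : {w : List T | w ∈ {w | ∃ u ∈ S, ∃ v ∈ S', w = u ++ v} ∧ w.length = m} ⊆
      ⋃ i : Fin (m + 1), (fun p : List T × List T => p.1 ++ p.2) ''
        ({w : List T | w ∈ S ∧ w.length = i} ×ˢ {w : List T | w ∈ S' ∧ w.length = m - i}) := by
    rintro w ⟨⟨u, hu, v, hv, rfl⟩, hlen⟩
    rw [List.length_append] at hlen
    refine Set.mem_iUnion.2 ⟨⟨u.length, by omega⟩, (u, v), ⟨⟨hu, rfl⟩, hv, ?_⟩, rfl⟩
    show v.length = m - u.length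
    omega
  have hfin : ∀ i : Fin (m + 1), (({w : List T | w ∈ S ∧ w.length = i} ×ˢ
      {w : List T | w ∈ S' ∧ w.length = m - i} : Set (List T × List T))).Finite :=
    fun i => (fin_len S i).prod (fin_len S' (m - i))
  refine (Set.ncard_le_ncard h1 (Set.finite_iUnion fun i => (hfin i).image _)).trans ?_
  refine (Set.ncard_iUnion_le_of_fintype _).trans ?_
  have h2 : ∀ i : Fin (m + 1), ((fun p : List T × List T => p.1 ++ p.2) ''
        ({w : List T | w ∈ S ∧ w.length = i} ×ˢ {w : List T | w ∈ S' ∧ w.length = m - i})).ncard ≤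
      C * (m + 1) ^ d * (C' * (m + 1) ^ d') := by
    intro i
    refine (Set.ncard_image_le (hfin i)).trans ?_
    rw [Set.ncard_prod]
    have hi := i.2
    refine Nat.mul_le_mul ((h i).trans ?_) ((h' (m - i)).trans ?_)
    · exact Nat.mul_le_mul_left _ (Nat.pow_le_pow_left (by omega) d)
    · exact Nat.mul_le_mul_left _ (Nat.pow_le_pow_left (by omega) d')
  calc _ ≤ ∑ _i : Fin (m + 1), C * (m + 1) ^ d * (C' * (m + 1) ^ d') :=
        Finset.sum_le_sum fun i _ => h2 i
    _ = C * C' * (m + 1) ^ (d + d' + 1) := by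
        rw [Finset.sum_const, Finset.card_univ, Fintype.card_fin, smul_eq_mul]
        ring

theorem Poly.ctx [Finite T] {S : Set (List T)} (h : Poly S) (K : Set (List T × List T))
    (hK : ∀ c ∈ K, ∀ c' ∈ K, c.1.length = c'.1.length → c.2.length = c'.2.length → c = c') :
    Poly {w | ∃ c ∈ K, ∃ v ∈ S, w = c.1 ++ v ++ c.2} := by
  obtain ⟨C, d, h⟩ := h
  refine ⟨C, d + 2, fun m => ?_⟩
  let E : Fin (m + 1) × Fin (m + 1) → Set (List T) := fun p =>
    {w | ∃ c ∈ K, c.1.length = p.1 ∧ c.2.length = p.2 ∧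
      ∃ v ∈ S, v.length = m - p.1 - p.2 ∧ w = c.1 ++ v ++ c.2}
  have h1 : {w : List T | w ∈ {w | ∃ c ∈ K, ∃ v ∈ S, w = c.1 ++ v ++ c.2} ∧ w.length = m} ⊆
      ⋃ p, E p := by
    rintro w ⟨⟨c, hc, v, hv, rfl⟩, hlen⟩
    rw [List.length_append, List.length_append] at hlen
    refine Set.mem_iUnion.2 ⟨(⟨c.1.length, by omega⟩, ⟨c.2.length, by omega⟩), c, hc, rfl, rfl,
      v, hv, ?_, rfl⟩
    show v.length = m - c.1.length - c.2.length
    omega
  have h2 : ∀ p, ∃ F : Set (List T), F.Finite ∧ E p ⊆ F ∧ F.ncard ≤ C * (m + 1) ^ d := by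
    intro p
    by_cases hp : ∃ c ∈ K, c.1.length = p.1 ∧ c.2.length = p.2
    · obtain ⟨c, hc, hc1, hc2⟩ := hp
      refine ⟨(fun v => c.1 ++ v ++ c.2) '' {v : List T | v ∈ S ∧ v.length = m - p.1 - p.2},
        (fin_len S _).image _, ?_, ?_⟩
      · rintro w ⟨c', hc', k1, k2, v, hv, k3, rfl⟩
        have h3 := hK c hc c' hc' (hc1.trans k1.symm) (hc2.trans k2.symm)
        subst h3
        exact ⟨v, ⟨hv, k3⟩, rfl⟩
      · refine (Set.ncard_image_le (fin_len S _)).trans ((h _).trans ?_)
        exact Nat.mul_le_mul_left _ (Nat.pow_le_pow_left (by omega) d)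
    · refine ⟨∅, Set.finite_empty, ?_, by rw [Set.ncard_empty]; exact Nat.zero_le _⟩
      rintro w ⟨c', hc', k1, k2, -⟩
      exact absurd ⟨c', hc', k1, k2⟩ hp
  choose F hF1 hF2 hF3 using h2
  refine (Set.ncard_le_ncard (h1.trans (Set.iUnion_mono hF2)) (Set.finite_iUnion hF1)).trans ?_
  refine (Set.ncard_iUnion_le_of_fintype _).trans ?_
  calc _ ≤ ∑ _p : Fin (m + 1) × Fin (m + 1), C * (m + 1) ^ d :=
        Finset.sum_le_sum fun p _ => hF3 p
    _ = C * (m + 1) ^ (d + 2) := by
        rw [Finset.sum_const, Finset.card_univ, Fintype.card_prod, Fintype.card_fin, smul_eq_mul]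
        ring

/-- A string of symbols. -/
theorem poly_string [Finite T] {g : ContextFreeGrammar T} (α : List (Symbol T g.NT))
    (h : ∀ Z, Symbol.nonterminal Z ∈ α → Poly (Lng g [Symbol.nonterminal Z])) :
    Poly (Lng g α) := by
  induction α with
  | nil =>
    refine Poly.mono (Poly.single []) ?_
    intro w hw
    have h1 : GenL g [] (w.map Symbol.terminal) := genL_of_derives hw
    have h2 : w.map (Symbol.terminal (N := g.NT)) = [] := by
      generalize w.map (Symbol.terminal (N := g.NT)) = v at h1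
      cases h1
      rfl
    exact List.map_eq_nil_iff.1 h2
  | cons a α ih =>
    have h1 : Poly (Lng g [a]) := by
      cases a with
      | terminal t =>
        refine Poly.mono (Poly.single [t]) ?_
        intro w hw
        have h1 : GenL g [Symbol.terminal t] (w.map Symbol.terminal) := genL_of_derives hw
        have h2 : w.map (Symbol.terminal (N := g.NT)) = [Symbol.terminal t] := by
          generalize w.map (Symbol.terminal (N := g.NT)) = v at h1
          cases h1 with
          | cons _ h => cases h; rfl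
        obtain ⟨a, l, h3, h4, h5⟩ := List.map_eq_cons_iff.1 h2
        rw [List.map_eq_nil_iff.1 h5] at h3
        rw [h3, Symbol.terminal.inj h4]
        rfl
      | nonterminal Z => exact h Z List.mem_cons_self
    refine Poly.mono (h1.concat (ih fun Z hZ => h Z (List.mem_cons_of_mem _ hZ))) ?_
    intro w hw
    exact lng_append (α := [a]) (β := α) hw

/-- The number of nonterminals below `X`. -/
noncomputable def rk (g : ContextFreeGrammar T) (X : g.NT) : ℕ :=
  {Y : g.NT | (∃ r ∈ g.rules, r.input = Y) ∧ Rch g X Y}.ncard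

theorem fin_inputs (g : ContextFreeGrammar T) (X : g.NT) :
    {Y : g.NT | (∃ r ∈ g.rules, r.input = Y) ∧ Rch g X Y}.Finite := by
  refine ((g.rules.finite_toSet).image fun r => r.input).subset ?_
  rintro Y ⟨⟨r, hr, rfl⟩, -⟩
  exact ⟨r, hr, rfl⟩

/-- The loops of `X` are determined by their lengths. -/
def Tame (g : ContextFreeGrammar T) (X : g.NT) : Prop :=
  ∀ u v u' v' : List T,
    g.Derives [Symbol.nonterminal X]
      (u.map Symbol.terminal ++ [Symbol.nonterminal X] ++ v.map Symbol.terminal) →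
    g.Derives [Symbol.nonterminal X]
      (u'.map Symbol.terminal ++ [Symbol.nonterminal X] ++ v'.map Symbol.terminal) →
    u.length = u'.length → v.length = v'.length → u = u' ∧ v = v'

theorem growth [Finite T] {g : ContextFreeGrammar T}
    (hP : ∀ X, Rch g g.initial X → (Lng g [Symbol.nonterminal X]).Nonempty → Tame g X)
    (X : g.NT) (hX : Rch g g.initial X) : Poly (Lng g [Symbol.nonterminal X]) := by
  obtain ⟨n, hn⟩ : ∃ n, n = rk g X := ⟨_, rfl⟩
  induction n using Nat.strong_induction_on generalizing X with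
  | _ n ih =>
    by_cases hne : (Lng g [Symbol.nonterminal X]).Nonempty
    swap
    · rw [Set.not_nonempty_iff_eq_empty.1 hne]
      exact Poly.empty
    have hT := hP X hX hne
    classical
    let good : ContextFreeRule T g.NT → Prop := fun r => Rch g r.input X ∧
      ∀ Z, Symbol.nonterminal Z ∈ r.output → ¬ Rch g Z X
    let K : ContextFreeRule T g.NT → Set (List T × List T) := fun r =>
      {c | g.Derives [Symbol.nonterminal X]
        (c.1.map Symbol.terminal ++ [Symbol.nonterminal r.input] ++ c.2.map Symbol.terminal)}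
    have hK : ∀ r, good r → ∀ c ∈ K r, ∀ c' ∈ K r, c.1.length = c'.1.length →
        c.2.length = c'.2.length → c = c' := by
      intro r hr c hc c' hc' h1 h2
      obtain ⟨⟨p, q, hpq⟩, -⟩ := hr
      have k1 := ctx_trans hc hpq
      have k2 := ctx_trans hc' hpq
      obtain ⟨k3, k4⟩ := hT _ _ _ _ k1 k2 (by rw [List.length_append, List.length_append, h1])
        (by rw [List.length_append, List.length_append, h2])
      exact Prod.ext (List.append_cancel_right k3) (List.append_cancel_left k4)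
    have hXin : ∃ r ∈ g.rules, r.input = X := by
      obtain ⟨w, hw⟩ := hne
      have h1 : GenL g [Symbol.nonterminal X] (w.map Symbol.terminal) := genL_of_derives hw
      generalize hv : w.map (Symbol.terminal (N := g.NT)) = v at h1
      cases h1 with
      | cons _ h =>
        obtain ⟨a, l, h3, h4, h5⟩ := List.map_eq_cons_iff.1 hv
        cases h4
      | node r hr hu hv => exact ⟨r, hr, rfl⟩
    have hS : ∀ r ∈ g.rules, good r →
        Poly {w | ∃ c ∈ K r, ∃ v ∈ Lng g r.output, w = c.1 ++ v ++ c.2} := by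
      intro r hr hgood
      by_cases h1 : (K r).Nonempty ∧ (Lng g r.output).Nonempty
      swap
      · refine Poly.mono Poly.empty ?_
        rintro w ⟨c, hc, v, hv, -⟩
        exact absurd ⟨⟨c, hc⟩, ⟨v, hv⟩⟩ h1
      obtain ⟨⟨c, hc⟩, ⟨v, hv⟩⟩ := h1
      refine Poly.ctx (poly_string _ fun Z hZ => ?_) (K r) (hK r hgood)
      have hXr : Rch g X r.input := ⟨c.1, c.2, hc⟩
      have hrZ : Rch g r.input Z := by
        obtain ⟨α, β, hαβ⟩ := List.append_of_mem hZ
        have h2 : v ∈ Lng g (α ++ ([Symbol.nonterminal Z] ++ β)) := by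
          rw [List.singleton_append, ← hαβ]; exact hv
        obtain ⟨w1, hw1, w2, hw2, -⟩ := lng_append h2
        obtain ⟨w3, -, w4, hw4, -⟩ := lng_append hw2
        refine ⟨w1, w4, ?_⟩
        have k1 : g.Derives [Symbol.nonterminal r.input] (α ++ [Symbol.nonterminal Z] ++ β) := by
          have e : α ++ [Symbol.nonterminal Z] ++ β = r.output := by rw [hαβ]; simp
          rw [e]
          exact ContextFreeGrammar.Produces.single ⟨r, hr, ContextFreeRule.Rewrites.input_output⟩
        have k2 : g.Derives (α ++ [Symbol.nonterminal Z] ++ β)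
            (w1.map Symbol.terminal ++ [Symbol.nonterminal Z] ++ β) := by
          rw [List.append_assoc, List.append_assoc]
          exact ContextFreeGrammar.Derives.append_right hw1 _
        have k3 : g.Derives (w1.map Symbol.terminal ++ [Symbol.nonterminal Z] ++ β)
            (w1.map Symbol.terminal ++ [Symbol.nonterminal Z] ++ w4.map Symbol.terminal) :=
          ContextFreeGrammar.Derives.append_left hw4 _
        exact (k1.trans k2).trans k3
      have hXZ : Rch g X Z := hXr.trans hrZ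
      refine ih (rk g Z) ?_ Z (hX.trans hXZ) rfl
      rw [hn]
      refine Set.ncard_lt_ncard ?_ (fin_inputs g X)
      refine ⟨fun Y hY => ⟨hY.1, hXZ.trans hY.2⟩, fun hsub => ?_⟩
      exact hgood.2 Z hZ (hsub ⟨hXin, Rch.refl X⟩).2
    refine Poly.mono (Poly.biUnion (g.rules.filter fun r => good r)
      (fun r => {w | ∃ c ∈ K r, ∃ v ∈ Lng g r.output, w = c.1 ++ v ++ c.2}) fun r hr =>
        hS r (Finset.mem_filter.1 hr).1 (Finset.mem_filter.1 hr).2) ?_
    intro w hw
    obtain ⟨r, hr, h1, h2, u, w', v', h3, h4, h5⟩ := decomp (X := X) (genL_of_derives hw) X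
      List.mem_cons_self (Rch.refl X) w rfl [] [] (ContextFreeGrammar.Derives.refl _)
    refine ⟨r, Finset.mem_filter.2 ⟨hr, h1, h2⟩, (u, v'), h3, w', h4, ?_⟩
    rw [List.nil_append, List.append_nil] at h5
    exact h5

end Pool.Agent.CF16
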