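import Pool.Agent.CF16.Unif

/-!
CF16/Pos: context-free sets in arbitrary positional numeration systems.
-/

set_option autoImplicit false

namespace Pool.Agent.CF16

variable {T : Type}

/-- Value of a word: the letter `t` in position `j` has the weight `c j t`. -/
def wv (c : ℕ → T → ℕ) : List T → ℕ
  | [] => 0
  | t :: w => c 0 t + wv (fun j => c (j + 1)) w

theorem wv_append (c : ℕ → T → ℕ) (u v : List T) :
    wv c (u ++ v) = wv c u + wv (fun j => c (j + u.length)) v := by
  induction u generalizing c with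
  | nil => simp [wv]
  | cons t u ih =>
    have h : (fun j => c (j + 1 + u.length)) = fun j => c (j + (t :: u).length) := by
      funext j
      rw [List.length_cons]
      congr 1
      omega
    show c 0 t + wv (fun j => c (j + 1)) (u ++ v) = c 0 t + wv (fun j => c (j + 1)) u + _
    rw [ih]
    have h' : (fun j => (fun j => c (j + 1)) (j + u.length)) =
        fun j => c (j + (t :: u).length) := by
      funext j
      show c (j + u.length + 1) = _
      rw [List.length_cons]
      congr 1
    rw [h']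
    omega

theorem wv_le {K : ℕ} (hK : 2 ≤ K) : ∀ (w : List T) (c : ℕ → T → ℕ) (j : ℕ),
    (∀ i t, c i t ≤ K ^ (i + j)) → wv c w + K ^ j ≤ K ^ (w.length + j) := by
  intro w
  induction w with
  | nil => intro c j _; simp [wv]
  | cons t w ih =>
    intro c j hc
    have h1 := ih (fun i => c (i + 1)) (j + 1) (fun i t => by
      have := hc (i + 1) t
      rwa [show i + 1 + j = i + (j + 1) by ring] at this)
    have h2 := hc 0 t
    rw [Nat.zero_add] at h2
    have h3 : w.length + (j + 1) = (t :: w).length + j := by rw [List.length_cons]; ring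
    rw [h3] at h1
    have h4 : K ^ (j + 1) = K * K ^ j := by rw [pow_succ]; ring
    rw [h4] at h1
    have h5 : 2 * K ^ j ≤ K * K ^ j := Nat.mul_le_mul_right _ hK
    show c 0 t + wv (fun i => c (i + 1)) w + K ^ j ≤ _
    omega

/-- Nested loops. -/
def innerT (u v : Bool → List T) (y : List T) : List Bool → List T
  | [] => y
  | b :: i => u b ++ (innerT u v y i ++ v b)

section

variable {u v : Bool → List T} {y : List T} {a d : ℕ}

theorem innerT_length (hu : ∀ b, (u b).length = a) (hv : ∀ b, (v b).length = d)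
    (i : List Bool) : (innerT u v y i).length = y.length + i.length * (a + d) := by
  induction i with
  | nil => simp [innerT]
  | cons b i ih =>
    rw [innerT, List.length_append, List.length_append, ih, hu, hv, List.length_cons]
    ring

theorem innerT_inj (hu : ∀ b, (u b).length = a) (hv : ∀ b, (v b).length = d)
    (hne : ¬ (u true = u false ∧ v true = v false)) :
    ∀ i i' : List Bool, i.length = i'.length → innerT u v y i = innerT u v y i' → i = i' := by
  intro i
  induction i with
  | nil => intro i' hl _; exact (List.length_eq_zero_iff.1 hl.symm).symm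
  | cons b i ih =>
    intro i' hl h
    cases i' with
    | nil => simp at hl
    | cons b' i' =>
      rw [innerT, innerT] at h
      have hl' : i.length = i'.length := by simpa using hl
      obtain ⟨h1, h2⟩ := List.append_inj h (by rw [hu, hu])
      obtain ⟨h3, h4⟩ := List.append_inj h2 (by rw [innerT_length hu hv, innerT_length hu hv, hl'])
      have h5 := ih i' hl' h3
      subst h5
      have h6 : b = b' := by
        cases b <;> cases b'
        · rfl
        · exact absurd ⟨h1.symm, h4.symm⟩ hne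
        · exact absurd ⟨h1, h4⟩ hne
        · rfl
      rw [h6]

theorem innerT_sum (hu : ∀ b, (u b).length = a) (hv : ∀ b, (v b).length = d) (n : ℕ) :
    ∀ c : ℕ → T → ℕ, ∃ s : ℕ, ∀ i : List Bool, i.length = n →
      wv c (innerT u v y i) + wv c (innerT u v y (i.map not)) = s := by
  induction n with
  | zero =>
    intro c
    refine ⟨wv c y + wv c y, fun i hi => ?_⟩
    rw [List.length_eq_zero_iff.1 hi]
    rfl
  | succ n ih =>
    intro c
    obtain ⟨s, hs⟩ := ih (fun j => c (j + a))
    refine ⟨wv c (u true) + wv c (u false) + s +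
      (wv (fun j => c (j + (y.length + n * (a + d)) + a)) (v true) +
        wv (fun j => c (j + (y.length + n * (a + d)) + a)) (v false)), fun i hi => ?_⟩
    cases i with
    | nil => simp at hi
    | cons b i =>
      have hi' : i.length = n := by simpa using hi
      have h1 := hs i hi'
      rw [List.map_cons, innerT, innerT, wv_append, wv_append, wv_append, wv_append, hu, hu,
        innerT_length hu hv, innerT_length hu hv, List.length_map, hi', ← h1]
      cases b
      · show wv c (u false) + _ + (wv c (u true) + _) = _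
        simp only [Bool.not_false]
        ring
      · show wv c (u true) + _ + (wv c (u false) + _) = _
        simp only [Bool.not_true]
        ring

theorem innerT_derives {g : ContextFreeGrammar T} {X : g.NT}
    (h : ∀ b, g.Derives [Symbol.nonterminal X]
      ((u b).map Symbol.terminal ++ [Symbol.nonterminal X] ++ (v b).map Symbol.terminal))
    (hy : y ∈ Lng g [Symbol.nonterminal X]) (i : List Bool) :
    innerT u v y i ∈ Lng g [Symbol.nonterminal X] := by
  induction i with
  | nil => exact hy
  | cons b i ih =>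
    show g.Derives _ _
    rw [innerT, List.map_append, List.map_append, ← List.append_assoc]
    exact derives_subst (h b) ih

end

theorem many_repsT {K : ℕ} (hK : 2 ≤ K) {A : Set ℕ} {c : ℕ → T → ℕ}
    (hc : ∀ j t, c j t ≤ K ^ (j + 1)) {L : Set (List T)}
    (hinj : ∀ w ∈ L, ∀ w' ∈ L, w.length = w'.length → wv c w = wv c w' → w = w')
    (hA : ∀ w ∈ L, wv c w ∈ A) {u v : Bool → List T} {x y z : List T}
    {a d : ℕ} (hu : ∀ b, (u b).length = a) (hv : ∀ b, (v b).length = d)
    (hne : ¬ (u true = u false ∧ v true = v false))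
    (hL : ∀ i : List Bool, x ++ (innerT u v y i ++ z) ∈ L) (n : ℕ) :
    ∃ n0 : ℕ, n0 < K ^ (x.length + y.length + z.length + 2 + n * (a + d)) ∧
      2 ^ n ≤ {p : ℕ × ℕ | p.1 ∈ A ∧ p.2 ∈ A ∧ p.1 + p.2 = n0}.ncard := by
  classical
  obtain ⟨l, hl⟩ : ∃ l, l = y.length + n * (a + d) := ⟨_, rfl⟩
  have hlen : ∀ i : List Bool, i.length = n →
      (x ++ (innerT u v y i ++ z)).length = x.length + l + z.length := by
    intro i hi
    rw [List.length_append, List.length_append, innerT_length hu hv, hi, ← hl]
    ring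
  obtain ⟨s, hs⟩ := innerT_sum (y := y) hu hv n (fun j => c (j + x.length))
  obtain ⟨n0, hn0⟩ : ∃ n0, n0 = wv c x + wv c x + (s +
      (wv (fun j => c (j + l + x.length)) z + wv (fun j => c (j + l + x.length)) z)) :=
    ⟨_, rfl⟩
  have hsum : ∀ i : List Bool, i.length = n → wv c (x ++ (innerT u v y i ++ z)) +
      wv c (x ++ (innerT u v y (i.map not) ++ z)) = n0 := by
    intro i hi
    have h1 := hs i hi
    rw [wv_append, wv_append, wv_append, wv_append, innerT_length hu hv, innerT_length hu hv,
      List.length_map, hi, ← hl, hn0, ← h1]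
    ring
  refine ⟨n0, ?_, ?_⟩
  · have h1 := hsum (List.replicate n true) (List.length_replicate ..)
    have h2 := wv_le hK (x ++ (innerT u v y (List.replicate n true) ++ z)) c 1 hc
    have h3 := wv_le hK (x ++ (innerT u v y ((List.replicate n true).map not) ++ z)) c 1 hc
    rw [hlen _ (List.length_replicate ..)] at h2
    rw [hlen _ (by rw [List.length_map, List.length_replicate])] at h3
    have h4 : K ^ (x.length + y.length + z.length + 2 + n * (a + d)) =
        K ^ (x.length + l + z.length + 1) * K := by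
      rw [← pow_succ, hl]
      congr 1
      ring
    rw [h4]
    rw [pow_one] at h2 h3
    have h5 : K ^ (x.length + l + z.length + 1) * 2 ≤ K ^ (x.length + l + z.length + 1) * K :=
      Nat.mul_le_mul_left _ hK
    omega
  · let F : (Fin n → Bool) → ℕ × ℕ := fun s =>
      (wv c (x ++ (innerT u v y (List.ofFn s) ++ z)),
        wv c (x ++ (innerT u v y ((List.ofFn s).map not) ++ z)))
    have hF : Function.Injective F := by
      intro s s' h
      have h1 : wv c (x ++ (innerT u v y (List.ofFn s) ++ z)) =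
          wv c (x ++ (innerT u v y (List.ofFn s') ++ z)) := congrArg Prod.fst h
      have h2 := hinj _ (hL _) _ (hL _)
        (by rw [hlen _ (List.length_ofFn), hlen _ (List.length_ofFn)]) h1
      have h3 := List.append_cancel_right (List.append_cancel_left h2)
      exact List.ofFn_injective (innerT_inj hu hv hne _ _
        (by rw [List.length_ofFn, List.length_ofFn]) h3)
    have hfin : {p : ℕ × ℕ | p.1 ∈ A ∧ p.2 ∈ A ∧ p.1 + p.2 = n0}.Finite := by
      refine ((Set.finite_Iic n0).prod (Set.finite_Iic n0)).subset ?_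
      rintro p ⟨_, _, hp⟩
      exact ⟨show p.1 ≤ n0 by omega, show p.2 ≤ n0 by omega⟩
    have h1 : Set.range F ⊆ {p : ℕ × ℕ | p.1 ∈ A ∧ p.2 ∈ A ∧ p.1 + p.2 = n0} := by
      rintro _ ⟨s, rfl⟩
      exact ⟨hA _ (hL _), hA _ (hL _), hsum _ List.length_ofFn⟩
    have h2 := Set.ncard_le_ncard h1 hfin
    rw [← Set.image_univ, Set.ncard_image_of_injective _ hF, Set.ncard_univ,
      Nat.card_eq_fintype_card, Fintype.card_fun, Fintype.card_fin, Fintype.card_bool] at h2
    exact h2

theorem dichT [Finite T] {L : Language T} (hCF : L.IsContextFree) {K : ℕ} (hK : 2 ≤ K)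
    {c : ℕ → T → ℕ} (hc : ∀ j t, c j t ≤ K ^ (j + 1))
    (hinj : ∀ w ∈ L, ∀ w' ∈ L, w.length = w'.length → wv c w = wv c w' → w = w')
    {A : Set ℕ} (hA : ∀ w ∈ L, wv c w ∈ A) :
    (∃ C d : ℕ, ∀ N : ℕ, ({n : ℕ | ∃ w ∈ L, w.length ≤ K * (Nat.log 2 n + 1) ∧ wv c w = n} ∩
      Set.Iio N).ncard ≤ C * (Nat.log 2 N + 1) ^ d) ∨
      ∃ e : ℝ, 0 < e ∧ ∃ N0 : ℕ, ∀ N : ℕ, N0 ≤ N → ∃ n : ℕ, n < N ∧
        (N : ℝ) ^ e ≤ ({p : ℕ × ℕ | p.1 ∈ A ∧ p.2 ∈ A ∧ p.1 + p.2 = n}.ncard : ℝ) := by
  classical
  obtain ⟨g, hg⟩ := hCF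
  have hlang : ∀ w : List T, w ∈ Lng g [Symbol.nonterminal g.initial] ↔ w ∈ L := by
    intro w
    show w ∈ g.language ↔ _
    rw [hg]
  by_cases hP : ∀ X, Rch g g.initial X → (Lng g [Symbol.nonterminal X]).Nonempty → Tame g X
  · left
    obtain ⟨C, d, h⟩ := growth hP g.initial (Rch.refl _)
    refine ⟨C * (2 * K + 1) ^ (d + 1), d + 1, fun N => ?_⟩
    obtain ⟨m, hm⟩ : ∃ m, m = K * (Nat.log 2 N + 1) := ⟨_, rfl⟩
    have h1 : {n : ℕ | ∃ w ∈ L, w.length ≤ K * (Nat.log 2 n + 1) ∧ wv c w = n} ∩ Set.Iio N ⊆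
        ⋃ j : Fin (m + 1), wv c '' {w : List T |
          w ∈ Lng g [Symbol.nonterminal g.initial] ∧ w.length = (j : ℕ)} := by
      rintro n ⟨⟨w, hw, hwl, hwn⟩, hn⟩
      have hn' : n < N := hn
      have h2 : w.length ≤ m := by
        rw [hm]
        refine hwl.trans (Nat.mul_le_mul_left _ ?_)
        exact Nat.succ_le_succ (Nat.log_mono_right hn'.le)
      exact Set.mem_iUnion.2 ⟨⟨w.length, by omega⟩, w, ⟨(hlang w).2 hw, rfl⟩, hwn⟩
    have h3 : (⋃ j : Fin (m + 1), wv c '' {w : List T |
        w ∈ Lng g [Symbol.nonterminal g.initial] ∧ w.length = (j : ℕ)}).Finite :=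
      Set.finite_iUnion fun j => (fin_len _ _).image _
    calc ({n : ℕ | ∃ w ∈ L, w.length ≤ K * (Nat.log 2 n + 1) ∧ wv c w = n} ∩
          Set.Iio N).ncard ≤ _ := Set.ncard_le_ncard h1 h3
      _ ≤ ∑ j : Fin (m + 1), (wv c '' {w : List T |
          w ∈ Lng g [Symbol.nonterminal g.initial] ∧ w.length = (j : ℕ)}).ncard :=
          Set.ncard_iUnion_le_of_fintype _
      _ ≤ ∑ _j : Fin (m + 1), C * (m + 1) ^ d := by
          refine Finset.sum_le_sum fun j _ => ?_
          refine (Set.ncard_image_le (fin_len _ _)).trans ((h j).trans ?_)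
          exact Nat.mul_le_mul_left _ (Nat.pow_le_pow_left (by omega) d)
      _ = C * (m + 1) ^ (d + 1) := by
          rw [Finset.sum_const, Finset.card_univ, Fintype.card_fin, smul_eq_mul]
          ring
      _ ≤ C * ((2 * K + 1) * (Nat.log 2 N + 1)) ^ (d + 1) := by
          refine Nat.mul_le_mul_left _ (Nat.pow_le_pow_left ?_ _)
          rw [hm]
          nlinarith
      _ = C * (2 * K + 1) ^ (d + 1) * (Nat.log 2 N + 1) ^ (d + 1) := by
          rw [mul_pow]; ring
  · right
    push Not at hP
    obtain ⟨X, ⟨x, z, hxz⟩, ⟨y, hy⟩, hT⟩ := hP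
    unfold Tame at hT
    push Not at hT
    obtain ⟨u1, v1, u2, v2, h1, h2, h3, h4, h5⟩ := hT
    obtain ⟨u, hu⟩ : ∃ u : Bool → List T, u = fun b => if b then u1 else u2 := ⟨_, rfl⟩
    obtain ⟨v, hv⟩ : ∃ v : Bool → List T, v = fun b => if b then v1 else v2 := ⟨_, rfl⟩
    have hu1 : ∀ b, (u b).length = u1.length := by
      intro b; rw [hu]; cases b <;> simp [h3]
    have hv1 : ∀ b, (v b).length = v1.length := by
      intro b; rw [hv]; cases b <;> simp [h4]
    have hne : ¬ (u true = u false ∧ v true = v false) := by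
      rintro ⟨k1, k2⟩
      rw [hu] at k1
      rw [hv] at k2
      exact h5 k1 k2
    have hd : ∀ b, g.Derives [Symbol.nonterminal X]
        ((u b).map Symbol.terminal ++ [Symbol.nonterminal X] ++ (v b).map Symbol.terminal) := by
      intro b
      rw [hu, hv]
      cases b
      · exact h2
      · exact h1
    have hmem : ∀ i : List Bool, x ++ (innerT u v y i ++ z) ∈ L := by
      intro i
      refine (hlang _).1 ?_
      show g.Derives _ _
      rw [List.map_append, List.map_append, ← List.append_assoc]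
      exact derives_subst hxz (innerT_derives hd hy i)
    obtain ⟨D, hD⟩ : ∃ D, D = x.length + y.length + z.length + 2 + (u1.length + v1.length) :=
      ⟨_, rfl⟩
    have hD1 : 1 ≤ D := by omega
    refine scale (r := fun n => {p : ℕ × ℕ | p.1 ∈ A ∧ p.2 ∈ A ∧ p.1 + p.2 = n}.ncard) hK hD1
      fun M => ?_
    obtain ⟨n0, hn0, hn1⟩ := many_repsT hK hc hinj hA hu1 hv1 hne hmem M
    refine ⟨n0, hn0.trans_le (Nat.pow_le_pow_right (by omega) ?_), hn1⟩
    rw [hD]
    nlinarith

theorem wv_eq_sum (c : ℕ → T → ℕ) (w : List T) :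
    wv c w = ∑ j : Fin w.length, c j (w.get j) := by
  induction w generalizing c with
  | nil => rfl
  | cons t w ih =>
    show c 0 t + wv (fun j => c (j + 1)) w = ∑ j : Fin (w.length + 1), c j ((t :: w).get j)
    rw [Fin.sum_univ_succ, ih]
    rfl

theorem polylog_iUnion {s : ℕ} {B : Fin s → Set ℕ}
    (h : ∀ i, ∃ C d : ℕ, ∀ N : ℕ, (B i ∩ Set.Iio N).ncard ≤ C * (Nat.log 2 N + 1) ^ d) :
    ∃ C d : ℕ, ∀ N : ℕ, ((⋃ i, B i) ∩ Set.Iio N).ncard ≤ C * (Nat.log 2 N + 1) ^ d := by
  choose C d h using h
  refine ⟨∑ i, C i, ∑ i, d i, fun N => ?_⟩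
  rw [Set.iUnion_inter, Finset.sum_mul]
  refine (Set.ncard_iUnion_le_of_fintype _).trans (Finset.sum_le_sum fun i _ => (h i N).trans ?_)
  exact Nat.mul_le_mul_left _ (Nat.pow_le_pow_right (Nat.succ_pos _)
    (Finset.single_le_sum (f := d) (fun _ _ => Nat.zero_le _) (Finset.mem_univ i)))

end Pool.Agent.CF16
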