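import Pool.Agent.CF16.Poly
import Pool.Agent.CF16.Main

/-!
CF16/Swap: two different loops of equal lengths give numbers with many representations.
-/

set_option autoImplicit false

namespace Pool.Agent.CF16

open Pool.Agent.DB70

variable {k : ℕ}

/-- The number with the digits `w`, least significant first. -/
def nv (w : List (Fin k)) : ℕ := Nat.ofDigits k (w.map Fin.val)

theorem nv_append (u v : List (Fin k)) : nv (u ++ v) = nv u + k ^ u.length * nv v := by
  rw [nv, List.map_append, Nat.ofDigits_append, List.length_map]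
  rfl

theorem nv_lt (w : List (Fin k)) (hk : 2 ≤ k) : nv w < k ^ w.length := by
  have h1 := Nat.ofDigits_lt_base_pow_length (b := k) (l := w.map Fin.val) (by omega) (by
    intro x hx
    obtain ⟨d, -, rfl⟩ := List.mem_map.1 hx
    exact d.2)
  rw [List.length_map] at h1
  exact h1

theorem nv_inj (hk : 2 ≤ k) {w w' : List (Fin k)} (hl : w.length = w'.length)
    (h : nv w = nv w') : w = w' := by
  have hd : ∀ v : List (Fin k), ∀ x ∈ v.map Fin.val, x < k := by
    intro v x hx
    obtain ⟨d, -, rfl⟩ := List.mem_map.1 hx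
    exact d.2
  have h1 := Nat.ofDigits_inj_of_len_eq (b := k) (by omega)
    (L1 := w.map Fin.val) (L2 := w'.map Fin.val) (by rw [List.length_map, List.length_map, hl])
    (hd w) (hd w') h
  exact List.map_injective_iff.2 Fin.val_injective h1

/-- Nested loops. -/
def inner (u v : Bool → List (Fin k)) (y : List (Fin k)) : List Bool → List (Fin k)
  | [] => y
  | b :: i => u b ++ (inner u v y i ++ v b)

/-- The constant sum. -/
def cst (a c l : ℕ) (su sv sy : ℕ) : ℕ → ℕ
  | 0 => sy
  | n + 1 => su + k ^ a * (cst a c l su sv sy n + k ^ (l + n * (a + c)) * sv)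

section

variable {u v : Bool → List (Fin k)} {y : List (Fin k)} {a c : ℕ}

theorem inner_length (hu : ∀ b, (u b).length = a) (hv : ∀ b, (v b).length = c) (i : List Bool) :
    (inner u v y i).length = y.length + i.length * (a + c) := by
  induction i with
  | nil => simp [inner]
  | cons b i ih =>
    rw [inner, List.length_append, List.length_append, ih, hu, hv, List.length_cons]
    ring

theorem inner_inj (hu : ∀ b, (u b).length = a) (hv : ∀ b, (v b).length = c)
    (hne : ¬ (u true = u false ∧ v true = v false)) :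
    ∀ i i' : List Bool, i.length = i'.length → inner u v y i = inner u v y i' → i = i' := by
  intro i
  induction i with
  | nil => intro i' hl _; exact (List.length_eq_zero_iff.1 hl.symm).symm
  | cons b i ih =>
    intro i' hl h
    cases i' with
    | nil => simp at hl
    | cons b' i' =>
      rw [inner, inner] at h
      have hl' : i.length = i'.length := by simpa using hl
      obtain ⟨h1, h2⟩ := List.append_inj h (by rw [hu, hu])
      obtain ⟨h3, h4⟩ := List.append_inj h2 (by rw [inner_length hu hv, inner_length hu hv, hl'])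
      have h5 := ih i' hl' h3
      subst h5
      have h6 : b = b' := by
        cases b <;> cases b'
        · rfl
        · exact absurd ⟨h1.symm, h4.symm⟩ hne
        · exact absurd ⟨h1, h4⟩ hne
        · rfl
      rw [h6]

theorem inner_sum (hu : ∀ b, (u b).length = a) (hv : ∀ b, (v b).length = c) (i : List Bool) :
    nv (inner u v y i) + nv (inner u v y (i.map not)) =
      cst (k := k) a c y.length (nv (u true) + nv (u false)) (nv (v true) + nv (v false))
        (nv y + nv y) i.length := by
  induction i with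
  | nil => rfl
  | cons b i ih =>
    rw [List.map_cons, inner, inner, nv_append, nv_append, nv_append, nv_append, hu, hu,
      inner_length hu hv, inner_length hu hv, List.length_map, List.length_cons, cst, ← ih]
    cases b
    · show nv (u false) + _ + (nv (u true) + _) = _
      simp only [Bool.not_false]
      ring
    · show nv (u true) + _ + (nv (u false) + _) = _
      simp only [Bool.not_true]
      ring

theorem inner_derives {g : ContextFreeGrammar (Fin k)} {X : g.NT}
    (h : ∀ b, g.Derives [Symbol.nonterminal X]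
      ((u b).map Symbol.terminal ++ [Symbol.nonterminal X] ++ (v b).map Symbol.terminal))
    (hy : y ∈ Lng g [Symbol.nonterminal X]) (i : List Bool) :
    inner u v y i ∈ Lng g [Symbol.nonterminal X] := by
  induction i with
  | nil => exact hy
  | cons b i ih =>
    show g.Derives _ _
    rw [inner, List.map_append, List.map_append, ← List.append_assoc]
    exact derives_subst (h b) ih

end

theorem many_reps (hk : 2 ≤ k) {A : Set ℕ} {u v : Bool → List (Fin k)} {x y z : List (Fin k)}
    {a c : ℕ} (hu : ∀ b, (u b).length = a) (hv : ∀ b, (v b).length = c)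
    (hne : ¬ (u true = u false ∧ v true = v false))
    (hA : ∀ i : List Bool, nv (x ++ (inner u v y i ++ z)) ∈ A) (n : ℕ) :
    ∃ n0 : ℕ, n0 < k ^ (x.length + y.length + z.length + 1 + n * (a + c)) ∧
      2 ^ n ≤ {p : ℕ × ℕ | p.1 ∈ A ∧ p.2 ∈ A ∧ p.1 + p.2 = n0}.ncard := by
  classical
  obtain ⟨l, hl⟩ : ∃ l, l = y.length + n * (a + c) := ⟨_, rfl⟩
  have hlen : ∀ i : List Bool, i.length = n →
      (x ++ (inner u v y i ++ z)).length = x.length + l + z.length := by
    intro i hi
    rw [List.length_append, List.length_append, inner_length hu hv, hi, ← hl]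
    ring
  obtain ⟨n0, hn0⟩ : ∃ n0, n0 = nv x + nv x + k ^ x.length * (cst (k := k) a c y.length
      (nv (u true) + nv (u false)) (nv (v true) + nv (v false)) (nv y + nv y) n +
      k ^ l * (nv z + nv z)) := ⟨_, rfl⟩
  have hsum : ∀ i : List Bool, i.length = n → nv (x ++ (inner u v y i ++ z)) +
      nv (x ++ (inner u v y (i.map not) ++ z)) = n0 := by
    intro i hi
    have h1 := inner_sum (y := y) hu hv i
    rw [hi] at h1
    rw [nv_append, nv_append, nv_append, nv_append, inner_length hu hv, inner_length hu hv,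
      List.length_map, hi, ← hl, hn0, ← h1]
    ring
  refine ⟨n0, ?_, ?_⟩
  · have h1 := hsum (List.replicate n true) (List.length_replicate ..)
    have h2 := nv_lt (x ++ (inner u v y (List.replicate n true) ++ z)) hk
    have h3 := nv_lt (x ++ (inner u v y ((List.replicate n true).map not) ++ z)) hk
    rw [hlen _ (List.length_replicate ..)] at h2
    rw [hlen _ (by rw [List.length_map, List.length_replicate])] at h3
    have h4 : k ^ (x.length + y.length + z.length + 1 + n * (a + c)) =
        k ^ (x.length + l + z.length) * k := by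
      rw [← pow_succ, hl]
      congr 1
      ring
    rw [h4]
    nlinarith
  · let F : (Fin n → Bool) → ℕ × ℕ := fun s =>
      (nv (x ++ (inner u v y (List.ofFn s) ++ z)),
        nv (x ++ (inner u v y ((List.ofFn s).map not) ++ z)))
    have hF : Function.Injective F := by
      intro s s' h
      have h1 : nv (x ++ (inner u v y (List.ofFn s) ++ z)) =
          nv (x ++ (inner u v y (List.ofFn s') ++ z)) := congrArg Prod.fst h
      have h2 := nv_inj hk (by rw [hlen _ (List.length_ofFn), hlen _ (List.length_ofFn)]) h1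
      have h3 := List.append_cancel_right (List.append_cancel_left h2)
      exact List.ofFn_injective (inner_inj hu hv hne _ _
        (by rw [List.length_ofFn, List.length_ofFn]) h3)
    have hfin : {p : ℕ × ℕ | p.1 ∈ A ∧ p.2 ∈ A ∧ p.1 + p.2 = n0}.Finite := by
      refine ((Set.finite_Iic n0).prod (Set.finite_Iic n0)).subset ?_
      rintro p ⟨_, _, hp⟩
      exact ⟨show p.1 ≤ n0 by omega, show p.2 ≤ n0 by omega⟩
    have h1 : Set.range F ⊆ {p : ℕ × ℕ | p.1 ∈ A ∧ p.2 ∈ A ∧ p.1 + p.2 = n0} := by
      rintro _ ⟨s, rfl⟩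
      exact ⟨hA _, hA _, hsum _ List.length_ofFn⟩
    have h2 := Set.ncard_le_ncard h1 hfin
    rw [← Set.image_univ, Set.ncard_image_of_injective _ hF, Set.ncard_univ,
      Nat.card_eq_fintype_card, Fintype.card_fun, Fintype.card_fin, Fintype.card_bool] at h2
    exact h2

theorem reps_le (A : Set ℕ) (n : ℕ) :
    {p : ℕ × ℕ | p.1 ∈ A ∧ p.2 ∈ A ∧ p.1 + p.2 = n}.ncard ≤ n + 1 := by
  have h1 : {p : ℕ × ℕ | p.1 ∈ A ∧ p.2 ∈ A ∧ p.1 + p.2 = n} ⊆
      (fun a => (a, n - a)) '' (Finset.range (n + 1) : Set ℕ) := by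
    rintro ⟨a, b⟩ ⟨_, _, hp⟩
    have hp' : a + b = n := hp
    refine ⟨a, Finset.mem_coe.2 (Finset.mem_range.2 (by omega)), ?_⟩
    show (a, n - a) = (a, b)
    rw [show n - a = b by omega]
  have h2 := (Set.ncard_le_ncard h1 ((Finset.finite_toSet _).image _)).trans
    (Set.ncard_image_le (Finset.finite_toSet _))
  rwa [Set.ncard_coe_finset, Finset.card_range] at h2

/-- Dichotomy for context free sets. -/
theorem dich (hk : 2 ≤ k) {A : Set ℕ}
    (hA : Language.IsContextFree
      ({w : List (Fin k) | Nat.ofDigits k (w.map Fin.val) ∈ A} : Language (Fin k))) :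
    (∃ C d : ℕ, ∀ N : ℕ, (A ∩ Set.Iio N).ncard ≤ C * (Nat.log 2 N + 1) ^ d) ∨
      ∃ c : ℝ, 0 < c ∧ ∀ M : ℕ, ∃ n : ℕ, M ≤ n ∧
        (n : ℝ) ^ c ≤ ({p : ℕ × ℕ | p.1 ∈ A ∧ p.2 ∈ A ∧ p.1 + p.2 = n}.ncard : ℝ) := by
  classical
  obtain ⟨g, hg⟩ := hA
  have hlang : ∀ w : List (Fin k), w ∈ Lng g [Symbol.nonterminal g.initial] ↔ nv w ∈ A := by
    intro w
    show w ∈ g.language ↔ _
    rw [hg]
    rfl
  by_cases hP : ∀ X, Rch g g.initial X → (Lng g [Symbol.nonterminal X]).Nonempty → Tame g X
  · left
    obtain ⟨C, d, h⟩ := growth hP g.initial (Rch.refl _)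
    refine ⟨C * 2 ^ d, d, fun N => ?_⟩
    obtain ⟨m, hm⟩ : ∃ m, m = Nat.log 2 N + 1 := ⟨_, rfl⟩
    have hNm : N ≤ k ^ m := by
      rw [hm]
      exact (Nat.lt_pow_succ_log_self (by norm_num) N).le.trans (Nat.pow_le_pow_left hk _)
    have h1 : A ∩ Set.Iio N ⊆ nv '' {w : List (Fin k) |
        w ∈ Lng g [Symbol.nonterminal g.initial] ∧ w.length = m} := by
      rintro n ⟨hn, hn'⟩
      obtain ⟨f, rfl⟩ := exists_val (k := k) (m := m) (lt_of_lt_of_le hn' hNm)
      have h2 : nv (List.ofFn f) = val f := val_ofDigits f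
      exact ⟨List.ofFn f, ⟨(hlang _).2 (by rw [h2]; exact hn), List.length_ofFn⟩, h2⟩
    calc (A ∩ Set.Iio N).ncard ≤ _ := Set.ncard_le_ncard h1 ((fin_len _ m).image _)
      _ ≤ _ := Set.ncard_image_le (fin_len _ m)
      _ ≤ C * (m + 1) ^ d := h m
      _ ≤ C * (2 * (Nat.log 2 N + 1)) ^ d := by
          refine Nat.mul_le_mul_left _ (Nat.pow_le_pow_left ?_ d)
          omega
      _ = C * 2 ^ d * (Nat.log 2 N + 1) ^ d := by rw [mul_pow]; ring
  · right
    push Not at hP
    obtain ⟨X, ⟨x, z, hxz⟩, ⟨y, hy⟩, hT⟩ := hP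
    unfold Tame at hT
    push Not at hT
    obtain ⟨u1, v1, u2, v2, h1, h2, h3, h4, h5⟩ := hT
    obtain ⟨u, hu⟩ : ∃ u : Bool → List (Fin k), u = fun b => if b then u1 else u2 := ⟨_, rfl⟩
    obtain ⟨v, hv⟩ : ∃ v : Bool → List (Fin k), v = fun b => if b then v1 else v2 := ⟨_, rfl⟩
    have hu1 : ∀ b, (u b).length = u1.length := by
      intro b; rw [hu]; cases b <;> simp [h3]
    have hv1 : ∀ b, (v b).length = v1.length := by
      intro b; rw [hv]; cases b <;> simp [h4]
    have hne : ¬ (u true = u false ∧ v true = v false) := by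
      rintro ⟨k1, k2⟩
      rw [hu] at k1
      rw [hv] at k2
      exact h5 k1 k2
    have hd : ∀ b, g.Derives [Symbol.nonterminal X]
        ((u b).map Symbol.terminal ++ [Symbol.nonterminal X] ++ (v b).map Symbol.terminal) := by
      intro b
      rw [hu, hv]
      cases b
      · exact h2
      · exact h1
    have hmem : ∀ i : List Bool, nv (x ++ (inner u v y i ++ z)) ∈ A := by
      intro i
      refine (hlang _).1 ?_
      show g.Derives _ _
      rw [List.map_append, List.map_append, ← List.append_assoc]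
      exact derives_subst hxz (inner_derives hd hy i)
    obtain ⟨D, hD⟩ : ∃ D, D = x.length + y.length + z.length + 1 + (u1.length + v1.length) :=
      ⟨_, rfl⟩
    have hD1 : 1 ≤ D := by omega
    have hk1 : (1 : ℝ) < k := by exact_mod_cast (show 1 < k by omega)
    have hk0 : (0 : ℝ) < k := by linarith
    have hlk : 0 < Real.log k := Real.log_pos hk1
    have hD0 : (0 : ℝ) < D := by exact_mod_cast hD1
    refine ⟨Real.log 2 / (D * Real.log k), by have := Real.log_pos (one_lt_two (α := ℝ)); positivity,
      fun M => ?_⟩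
    obtain ⟨n0, hn0, hn1⟩ := many_reps hk hu1 hv1 hne hmem (M + 1)
    refine ⟨n0, ?_, ?_⟩
    · have h6 := hn1.trans (reps_le A n0)
      have h7 : M + 1 < 2 ^ (M + 1) := Nat.lt_two_pow_self
      omega
    · have h6 : n0 ≤ k ^ ((M + 1) * D) := by
        refine hn0.le.trans (Nat.pow_le_pow_right (by omega) ?_)
        rw [hD]
        nlinarith
      have h7 : (n0 : ℝ) ≤ (k : ℝ) ^ ((M + 1) * D) := by exact_mod_cast h6
      have h8 : ((k : ℝ) ^ ((M + 1) * D)) ^ (Real.log 2 / (D * Real.log k)) = 2 ^ (M + 1) := by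
        rw [← Real.rpow_natCast, ← Real.rpow_mul hk0.le, Real.rpow_def_of_pos hk0]
        have h9 : Real.log k * (((M + 1) * D : ℕ) * (Real.log 2 / (D * Real.log k))) =
            Real.log 2 * ((M + 1 : ℕ) : ℝ) := by
          push_cast
          field_simp
        rw [h9, Real.exp_mul, Real.exp_log (by norm_num), Real.rpow_natCast]
      calc (n0 : ℝ) ^ (Real.log 2 / (D * Real.log k))
          ≤ ((k : ℝ) ^ ((M + 1) * D)) ^ (Real.log 2 / (D * Real.log k)) :=
            Real.rpow_le_rpow (Nat.cast_nonneg _) h7 (by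
              have := Real.log_pos (one_lt_two (α := ℝ)); positivity)
        _ = 2 ^ (M + 1) := h8
        _ ≤ _ := by exact_mod_cast hn1

end Pool.Agent.CF16
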