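import Pool.Agent.CF16.Swap

/-!
CF16/Unif: uniform form of the dichotomy: `r_A` reaches `N ^ c` below `N`, for all large `N`.
-/

set_option autoImplicit false

namespace Pool.Agent.CF16

open Pool.Agent.DB70

variable {k : ℕ}

/-- many representations at every scale -/
theorem scale {r : ℕ → ℕ} {k D : ℕ} (hk : 2 ≤ k) (hD1 : 1 ≤ D)
    (h : ∀ M : ℕ, ∃ n0 : ℕ, n0 < k ^ ((M + 1) * D) ∧ 2 ^ M ≤ r n0) :
    ∃ c : ℝ, 0 < c ∧ ∃ N0 : ℕ, ∀ N : ℕ, N0 ≤ N → ∃ n : ℕ, n < N ∧ (N : ℝ) ^ c ≤ (r n : ℝ) := by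
  have hk1 : (1 : ℝ) < k := by exact_mod_cast (show 1 < k by omega)
  have hk0 : (0 : ℝ) < k := by linarith
  have hlk : 0 < Real.log k := Real.log_pos hk1
  have hl2 : 0 < Real.log 2 := Real.log_pos one_lt_two
  have hD0 : (0 : ℝ) < D := by exact_mod_cast hD1
  refine ⟨Real.log 2 / (3 * D * Real.log k), by positivity, k ^ (2 * D), fun N hN => ?_⟩
  have hN0 : N ≠ 0 := by
    have : 0 < k ^ (2 * D) := pow_pos (by omega) _
    omega
  obtain ⟨L, hL⟩ : ∃ L, L = Nat.log k N := ⟨_, rfl⟩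
  have hL2 : 2 * D ≤ L := by
    rw [hL]
    exact Nat.le_log_of_pow_le (by omega) hN
  obtain ⟨q, hq⟩ : ∃ q, q = L / D := ⟨_, rfl⟩
  have hq2 : 2 ≤ q := by
    rw [hq]
    exact (Nat.le_div_iff_mul_le (by omega)).2 hL2
  obtain ⟨M, hM⟩ : ∃ M, q = M + 1 := ⟨q - 1, by omega⟩
  have hM1 : 1 ≤ M := by omega
  have hlow : (M + 1) * D ≤ L := by
    rw [← hM, hq]
    exact Nat.div_mul_le_self L D
  have hhigh : L + 1 ≤ (M + 2) * D := by
    have h1 := Nat.lt_div_mul_add (a := L) (show 0 < D by omega)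
    rw [← hq, hM] at h1
    have h2 : (M + 1) * D + D = (M + 2) * D := by ring
    omega
  obtain ⟨n0, hn0, hn1⟩ := h M
  refine ⟨n0, ?_, ?_⟩
  · refine hn0.trans_le ((Nat.pow_le_pow_right (by omega) hlow).trans ?_)
    rw [hL]
    exact Nat.pow_log_le_self k hN0
  · have h3 : N ≤ k ^ ((M + 2) * D) := by
      have h4 : N < k ^ (L + 1) := by
        rw [hL]
        exact Nat.lt_pow_succ_log_self (by omega) N
      exact h4.le.trans (Nat.pow_le_pow_right (by omega) hhigh)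
    have h5 : (N : ℝ) ≤ (k : ℝ) ^ ((M + 2) * D) := by exact_mod_cast h3
    have hM3 : ((M : ℝ) + 2) / 3 ≤ M := by
      have : (1 : ℝ) ≤ M := by exact_mod_cast hM1
      linarith
    calc (N : ℝ) ^ (Real.log 2 / (3 * D * Real.log k))
        ≤ ((k : ℝ) ^ ((M + 2) * D)) ^ (Real.log 2 / (3 * D * Real.log k)) :=
          Real.rpow_le_rpow (Nat.cast_nonneg _) h5 (by positivity)
      _ = 2 ^ (((M : ℝ) + 2) / 3) := by
          rw [← Real.rpow_natCast, ← Real.rpow_mul hk0.le, Real.rpow_def_of_pos hk0,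
            Real.rpow_def_of_pos (by norm_num : (0 : ℝ) < 2)]
          congr 1
          push_cast
          field_simp
      _ ≤ 2 ^ (M : ℝ) := Real.rpow_le_rpow_of_exponent_le (by norm_num) hM3
      _ = ((2 ^ M : ℕ) : ℝ) := by rw [Real.rpow_natCast]; push_cast; rfl
      _ ≤ (r n0 : ℝ) := by exact_mod_cast hn1

/-- Dichotomy for context free sets, uniform form. -/
theorem dich_unif (hk : 2 ≤ k) {A : Set ℕ}
    (hA : Language.IsContextFree
      ({w : List (Fin k) | Nat.ofDigits k (w.map Fin.val) ∈ A} : Language (Fin k))) :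
    (∃ C d : ℕ, ∀ N : ℕ, (A ∩ Set.Iio N).ncard ≤ C * (Nat.log 2 N + 1) ^ d) ∨
      ∃ c : ℝ, 0 < c ∧ ∃ N0 : ℕ, ∀ N : ℕ, N0 ≤ N → ∃ n : ℕ, n < N ∧
        (N : ℝ) ^ c ≤ ({p : ℕ × ℕ | p.1 ∈ A ∧ p.2 ∈ A ∧ p.1 + p.2 = n}.ncard : ℝ) := by
  classical
  obtain ⟨g, hg⟩ := hA
  have hlang : ∀ w : List (Fin k), w ∈ Lng g [Symbol.nonterminal g.initial] ↔ nv w ∈ A := by
    intro w
    show w ∈ g.language ↔ _
    rw [hg]
    rfl
  by_cases hP : ∀ X, Rch g g.initial X → (Lng g [Symbol.nonterminal X]).Nonempty → Tame g X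
  · left
    obtain ⟨C, d, h⟩ := growth hP g.initial (Rch.refl _)
    refine ⟨C * 2 ^ d, d, fun N => ?_⟩
    obtain ⟨m, hm⟩ : ∃ m, m = Nat.log 2 N + 1 := ⟨_, rfl⟩
    have hNm : N ≤ k ^ m := by
      rw [hm]
      exact (Nat.lt_pow_succ_log_self (by norm_num) N).le.trans (Nat.pow_le_pow_left hk _)
    have h1 : A ∩ Set.Iio N ⊆ nv '' {w : List (Fin k) |
        w ∈ Lng g [Symbol.nonterminal g.initial] ∧ w.length = m} := by
      rintro n ⟨hn, hn'⟩
      obtain ⟨f, rfl⟩ := exists_val (k := k) (m := m) (lt_of_lt_of_le hn' hNm)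
      have h2 : nv (List.ofFn f) = val f := val_ofDigits f
      exact ⟨List.ofFn f, ⟨(hlang _).2 (by rw [h2]; exact hn), List.length_ofFn⟩, h2⟩
    calc (A ∩ Set.Iio N).ncard ≤ _ := Set.ncard_le_ncard h1 ((fin_len _ m).image _)
      _ ≤ _ := Set.ncard_image_le (fin_len _ m)
      _ ≤ C * (m + 1) ^ d := h m
      _ ≤ C * (2 * (Nat.log 2 N + 1)) ^ d := by
          refine Nat.mul_le_mul_left _ (Nat.pow_le_pow_left ?_ d)
          omega
      _ = C * 2 ^ d * (Nat.log 2 N + 1) ^ d := by rw [mul_pow]; ring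
  · right
    push Not at hP
    obtain ⟨X, ⟨x, z, hxz⟩, ⟨y, hy⟩, hT⟩ := hP
    unfold Tame at hT
    push Not at hT
    obtain ⟨u1, v1, u2, v2, h1, h2, h3, h4, h5⟩ := hT
    obtain ⟨u, hu⟩ : ∃ u : Bool → List (Fin k), u = fun b => if b then u1 else u2 := ⟨_, rfl⟩
    obtain ⟨v, hv⟩ : ∃ v : Bool → List (Fin k), v = fun b => if b then v1 else v2 := ⟨_, rfl⟩
    have hu1 : ∀ b, (u b).length = u1.length := by
      intro b; rw [hu]; cases b <;> simp [h3]
    have hv1 : ∀ b, (v b).length = v1.length := by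
      intro b; rw [hv]; cases b <;> simp [h4]
    have hne : ¬ (u true = u false ∧ v true = v false) := by
      rintro ⟨k1, k2⟩
      rw [hu] at k1
      rw [hv] at k2
      exact h5 k1 k2
    have hd : ∀ b, g.Derives [Symbol.nonterminal X]
        ((u b).map Symbol.terminal ++ [Symbol.nonterminal X] ++ (v b).map Symbol.terminal) := by
      intro b
      rw [hu, hv]
      cases b
      · exact h2
      · exact h1
    have hmem : ∀ i : List Bool, nv (x ++ (inner u v y i ++ z)) ∈ A := by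
      intro i
      refine (hlang _).1 ?_
      show g.Derives _ _
      rw [List.map_append, List.map_append, ← List.append_assoc]
      exact derives_subst hxz (inner_derives hd hy i)
    obtain ⟨D, hD⟩ : ∃ D, D = x.length + y.length + z.length + 1 + (u1.length + v1.length) :=
      ⟨_, rfl⟩
    have hD1 : 1 ≤ D := by omega
    refine scale (r := fun n => {p : ℕ × ℕ | p.1 ∈ A ∧ p.2 ∈ A ∧ p.1 + p.2 = n}.ncard) hk hD1
      fun M => ?_
    obtain ⟨n0, hn0, hn1⟩ := many_reps hk hu1 hv1 hne hmem M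
    refine ⟨n0, hn0.trans_le (Nat.pow_le_pow_right (by omega) ?_), hn1⟩
    rw [hD]
    nlinarith

end Pool.Agent.CF16
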